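import Mathlib

set_option autoImplicit false

/-!
# Two-sided unipotent / Levi-conjugation equivalence of lower block matrices
-/

namespace Pool.Agent.R272.Rook

open Matrix Finset

variable {ι : Type*} [Fintype ι] [DecidableEq ι] {F : Type*} [Field F] (blk : ι → ℕ)

/-- block upper triangular -/
def Up (g : Matrix ι ι F) : Prop := ∀ i j, blk j < blk i → g i j = 0

/-- strictly block upper triangular -/
def SUp (g : Matrix ι ι F) : Prop := ∀ i j, blk j ≤ blk i → g i j = 0

/-- strictly block lower -/
def IsLow (M : Matrix ι ι F) : Prop := ∀ w e, blk w ≤ blk e → M w e = 0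

/-- equivalence under `M ↦ g M h` (lower part), `g, h` block upper triangular with mutually
inverse diagonal blocks -/
def Rel (M M' : Matrix ι ι F) : Prop :=
  ∃ g h : Matrix ι ι F, Up blk g ∧ Up blk h ∧ SUp blk (g * h - 1) ∧ SUp blk (h * g - 1) ∧
    ∀ w e, blk e < blk w → M' w e = (g * M * h) w e

variable {blk}

omit [DecidableEq ι] in
lemma Up.mul {g h : Matrix ι ι F} (hg : Up blk g) (hh : Up blk h) : Up blk (g * h) := by
  intro i j hij
  rw [Matrix.mul_apply]
  refine Finset.sum_eq_zero fun k _ => ?_
  rcases lt_or_ge (blk k) (blk i) with h1 | h1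
  · rw [hg i k h1, zero_mul]
  · rw [hh k j (by omega), mul_zero]

omit [DecidableEq ι] in
lemma SUp.mul_left {g s : Matrix ι ι F} (hg : Up blk g) (hs : SUp blk s) : SUp blk (g * s) := by
  intro i j hij
  rw [Matrix.mul_apply]
  refine Finset.sum_eq_zero fun k _ => ?_
  rcases lt_or_ge (blk k) (blk i) with h1 | h1
  · rw [hg i k h1, zero_mul]
  · rw [hs k j (by omega), mul_zero]

omit [DecidableEq ι] in
lemma SUp.mul_right {s h : Matrix ι ι F} (hs : SUp blk s) (hh : Up blk h) : SUp blk (s * h) := by
  intro i j hij
  rw [Matrix.mul_apply]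
  refine Finset.sum_eq_zero fun k _ => ?_
  rcases le_or_gt (blk k) (blk i) with h1 | h1
  · rw [hs i k h1, zero_mul]
  · rw [hh k j (by omega), mul_zero]

omit [Fintype ι] [DecidableEq ι] in
lemma SUp.up {s : Matrix ι ι F} (hs : SUp blk s) : Up blk s := fun i j h => hs i j h.le

omit [Fintype ι] [DecidableEq ι] in
lemma SUp.add {s t : Matrix ι ι F} (hs : SUp blk s) (ht : SUp blk t) : SUp blk (s + t) := by
  intro i j h; rw [Matrix.add_apply, hs i j h, ht i j h, add_zero]

omit [Fintype ι] [DecidableEq ι] in
lemma SUp.neg {s : Matrix ι ι F} (hs : SUp blk s) : SUp blk (-s) := by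
  intro i j h; rw [Matrix.neg_apply, hs i j h, neg_zero]

omit [Fintype ι] [DecidableEq ι] in
lemma Up.add {s t : Matrix ι ι F} (hs : Up blk s) (ht : Up blk t) : Up blk (s + t) := by
  intro i j h; rw [Matrix.add_apply, hs i j h, ht i j h, add_zero]

omit [Fintype ι] in
lemma Up.neg {s : Matrix ι ι F} (hs : Up blk s) : Up blk (-s) := by
  intro i j h; rw [Matrix.neg_apply, hs i j h, neg_zero]

omit [Fintype ι] in
lemma up_one : Up blk (1 : Matrix ι ι F) := by
  intro i j h
  exact Matrix.one_apply_ne (by rintro rfl; exact lt_irrefl _ h)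

omit [Fintype ι] [DecidableEq ι] in
lemma sup_zero : SUp blk (0 : Matrix ι ι F) := fun _ _ _ => rfl

lemma Rel.refl (M : Matrix ι ι F) : Rel blk M M :=
  ⟨1, 1, up_one, up_one, by simpa using sup_zero, by simpa using sup_zero, by simp⟩

lemma Rel.of_eq {M M' : Matrix ι ι F} (h : M = M') : Rel blk M M' := h ▸ Rel.refl M

lemma Rel.trans {M M' M'' : Matrix ι ι F} (h1 : Rel blk M M') (h2 : Rel blk M' M'') :
    Rel blk M M'' := by
  obtain ⟨g, h, hg, hh, hgh, hhg, e1⟩ := h1
  obtain ⟨g', h', hg', hh', hgh', hhg', e2⟩ := h2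
  refine ⟨g' * g, h * h', hg'.mul hg, hh.mul hh', ?_, ?_, ?_⟩
  · have : g' * g * (h * h') - 1 = g' * (g * h - 1) * h' + (g' * h' - 1) := by
      noncomm_ring
    rw [this]
    exact ((SUp.mul_left hg' hgh).mul_right hh').add hgh'
  · have : h * h' * (g' * g) - 1 = h * (h' * g' - 1) * g + (h * g - 1) := by
      noncomm_ring
    rw [this]
    exact ((SUp.mul_left hh hhg').mul_right hg).add hhg
  · intro w e hwe
    have hU : Up blk (M' - g * M * h) := by
      intro a b hab
      rw [Matrix.sub_apply, e1 a b hab, sub_self]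
    have h3 : g' * M' * h' = g' * g * M * (h * h') + g' * (M' - g * M * h) * h' := by
      noncomm_ring
    rw [e2 w e hwe, h3, Matrix.add_apply, ((hg'.mul hU).mul hh') w e hwe, add_zero]

/-- row operation from lower blocks -/
lemma rel_row {M M' K : Matrix ι ι F} (hK : SUp blk K)
    (h : ∀ w e, blk e < blk w → M' w e = M w e + (K * M) w e) : Rel blk M M' := by
  refine ⟨1 + K, 1, up_one.add hK.up, up_one, by simpa using hK, by simpa using hK, ?_⟩
  intro w e hwe
  rw [h w e hwe, Matrix.mul_one, Matrix.add_mul, Matrix.one_mul, Matrix.add_apply]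

omit [Fintype ι] in
lemma single_up {k l : ι} (c : F) (h : blk k ≤ blk l) : Up blk (Matrix.single k l c) := by
  intro i j hij
  rw [Matrix.single_apply, if_neg]
  rintro ⟨rfl, rfl⟩
  omega

omit [Fintype ι] in
lemma single_sup {k l : ι} (c : F) (h : blk k < blk l) : SUp blk (Matrix.single k l c) := by
  intro i j hij
  rw [Matrix.single_apply, if_neg]
  rintro ⟨rfl, rfl⟩
  omega

lemma single_mul_app (k l : ι) (c : F) (M : Matrix ι ι F) (w e : ι) :
    (Matrix.single k l c * M) w e = if w = k then c * M l e else 0 := by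
  split_ifs with h
  · subst h; simp
  · exact Matrix.single_mul_apply_of_ne _ _ _ _ _ h _

lemma mul_single_app (k l : ι) (c : F) (M : Matrix ι ι F) (w e : ι) :
    (M * Matrix.single k l c) w e = if e = l then M w k * c else 0 := by
  split_ifs with h
  · subst h; simp
  · exact Matrix.mul_single_apply_of_ne _ _ _ _ _ h _

/-- subtract `c` times row `k` from row `l` -/
def rowSub (M : Matrix ι ι F) (l k : ι) (c : F) : Matrix ι ι F :=
  fun w y => M w y - if w = l then c * M k y else 0

/-- row operation from lower blocks, elementary -/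
lemma rel_rowSub {M : Matrix ι ι F} {l k : ι} (c : F) (h : blk l < blk k) :
    Rel blk M (rowSub M l k c) := by
  refine rel_row (K := Matrix.single l k (-c)) (single_sup _ h) ?_
  intro w e _
  rw [single_mul_app, rowSub]
  split_ifs <;> ring

/-- conjugation by an elementary matrix inside a diagonal block -/
def conj (M : Matrix ι ι F) (l k : ι) (c : F) : Matrix ι ι F :=
  fun w y => M w y - (if w = l then c * M k y else 0) + if y = k then c * M w l else 0

lemma rel_conj {M : Matrix ι ι F} {l k : ι} (c : F) (hM : IsLow blk M) (h : blk l = blk k)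
    (hne : l ≠ k) : Rel blk M (conj M l k c) := by
  have hs : Matrix.single l k c * Matrix.single l k c = (0 : Matrix ι ι F) :=
    Matrix.single_mul_single_of_ne _ _ _ _ hne.symm _
  refine ⟨1 - Matrix.single l k c, 1 + Matrix.single l k c, ?_, ?_, ?_, ?_, ?_⟩
  · rw [sub_eq_add_neg]
    exact up_one.add (single_up _ h.le).neg
  · exact up_one.add (single_up _ h.le)
  · have : (1 - Matrix.single l k c) * (1 + Matrix.single l k c) - 1
        = -(Matrix.single l k c * Matrix.single l k c) := by noncomm_ring
    rw [this, hs, neg_zero]; exact sup_zero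
  · have : (1 + Matrix.single l k c) * (1 - Matrix.single l k c) - 1
        = -(Matrix.single l k c * Matrix.single l k c) := by noncomm_ring
    rw [this, hs, neg_zero]; exact sup_zero
  · intro w e hwe
    have h1 : (1 - Matrix.single l k c) * M * (1 + Matrix.single l k c)
        = M - Matrix.single l k c * M + M * Matrix.single l k c
          - Matrix.single l k c * M * Matrix.single l k c := by noncomm_ring
    rw [h1, Matrix.sub_apply, Matrix.add_apply, Matrix.sub_apply, mul_single_app, mul_single_app,
      single_mul_app, single_mul_app, conj]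
    have h0 : M k l = 0 := hM k l (by omega)
    rw [h0]
    split_ifs <;> ring

omit [Fintype ι] in
lemma rowSub_low {M : Matrix ι ι F} {l k : ι} (c : F) (hM : IsLow blk M) (h : blk l = blk k) :
    IsLow blk (rowSub M l k c) := by
  intro w e hwe
  rw [rowSub, hM w e hwe]
  split_ifs with h1
  · subst h1; rw [hM k e (by omega)]; ring
  · ring

omit [Fintype ι] in
lemma conj_low {M : Matrix ι ι F} {l k : ι} (c : F) (hM : IsLow blk M) (h : blk l = blk k) :
    IsLow blk (conj M l k c) := by
  intro w e hwe
  have h2 : (if w = l then c * M k e else 0) = 0 := by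
    split_ifs with h1
    · subst h1; rw [hM k e (by omega)]; ring
    · rfl
  have h3 : (if e = k then c * M w l else 0) = 0 := by
    split_ifs with h1
    · subst h1; rw [hM w l (by omega)]; ring
    · rfl
  rw [conj, hM w e hwe, h2, h3]; ring

variable (blk) in
/-- the rows in `S` form a rook placement -/
def RookOn (M : Matrix ι ι F) (S : Set ι) : Prop :=
  (∀ w ∈ S, ∀ e, M w e = 0 ∨ M w e = 1) ∧
  (∀ w ∈ S, ∀ e e', M w e ≠ 0 → M w e' ≠ 0 → e = e') ∧
  (∀ w ∈ S, ∀ w' ∈ S, ∀ e, M w e ≠ 0 → M w' e ≠ 0 → w = w')

variable (blk) in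
/-- `Fut M e l`: `l` is the list of blocks visited after `e` -/
inductive Fut (M : Matrix ι ι F) : ι → List ℕ → Prop
  | nil (e : ι) (h : ∀ x, blk e < blk x → M x e = 0) : Fut M e []
  | cons (e x : ι) (l : List ℕ) (h : blk e < blk x) (h1 : M x e ≠ 0) (h2 : Fut M x l) :
      Fut M e (blk x :: l)

omit [Fintype ι] [DecidableEq ι] in
lemma Fut.congr {M M' : Matrix ι ι F} {e : ι} {l : List ℕ} (h : Fut blk M e l)
    (hM : ∀ x y, blk e < blk x → M' x y = M x y) : Fut blk M' e l := by
  induction h with
  | nil e h => exact Fut.nil e fun x hx => by rw [hM x e hx]; exact h x hx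
  | cons e x l h h1 h2 ih =>
    exact Fut.cons e x l h (by rw [hM x e h]; exact h1) (ih fun a b hab => hM a b (h.trans hab))

omit [DecidableEq ι] in
lemma exists_fut (M : Matrix ι ι F) (e : ι) : ∃ l, Fut blk M e l := by
  obtain ⟨N, hN⟩ : ∃ N, ∀ i, blk i < N :=
    ⟨(Finset.univ.sup blk) + 1, fun i => Nat.lt_succ_of_le (Finset.le_sup (Finset.mem_univ i))⟩
  induction hk : N - blk e using Nat.strong_induction_on generalizing e with
  | _ k ih =>
    by_cases h : ∃ x, blk e < blk x ∧ M x e ≠ 0
    · obtain ⟨x, hx, hx1⟩ := h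
      obtain ⟨l, hl⟩ := ih (N - blk x) (by have := hN x; omega) x rfl
      exact ⟨_, Fut.cons e x l hx hx1 hl⟩
    · push Not at h
      exact ⟨[], Fut.nil e h⟩

lemma cons_le_cases {b a : ℕ} {l m : List ℕ} (h : b :: l ≤ a :: m) :
    b < a ∨ (b = a ∧ l ≤ m) := by
  rcases le_iff_lt_or_eq.mp h with h | h
  · match h with
    | .cons h' => exact Or.inr ⟨rfl, le_of_lt h'⟩
    | .rel h' => exact Or.inl h'
  · obtain ⟨h1, h2⟩ := List.cons.inj h
    exact Or.inr ⟨h1, h2.le⟩

/-- key lemma: within a block, a multiple of a row with larger future can be subtracted from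
a row with smaller future, without changing anything else. -/
lemma absorb : ∀ (l' l : List ℕ) (M : Matrix ι ι F) (e e' : ι) (c : F), IsLow blk M →
    RookOn M {w | blk e < blk w} → blk e' = blk e → e' ≠ e → Fut blk M e l → Fut blk M e' l' →
    l' ≤ l → Rel blk M (rowSub M e' e c) := by
  intro l'
  induction l' with
  | nil =>
    intro l M e e' c hM hR hb hne _ h2 _
    refine (rel_conj c hM hb hne).trans (Rel.of_eq ?_)
    funext w y
    rw [conj, rowSub]
    have h3 : (if y = e then c * M w e' else 0) = 0 := by
      split_ifs with h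
      · cases h2 with
        | nil _ h2 =>
          rcases lt_or_ge (blk e') (blk w) with h4 | h4
          · rw [h2 w h4, mul_zero]
          · rw [hM w e' h4, mul_zero]
      · rfl
    rw [h3, add_zero]
  | cons b l'' ih =>
    intro l M e e' c hM hR hb hne h1 h2 hle
    cases h2 with
    | cons _ x' _ hx' hx'1 hx'2 =>
    cases h1 with
    | nil => exact absurd hle (by simp)
    | cons _ x m hx hx1 hx2 =>
    have hxx : x' ≠ x := by
      rintro rfl
      exact hne (hR.2.1 x' hx e' e hx'1 hx1)
    have hM1 : ∀ w, blk e < blk w → w ≠ x' → M w e' = 0 := by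
      intro w hw hwx
      by_contra h
      exact hwx (hR.2.2 w hw x' (by simpa [hb] using hx') e' h hx'1)
    have hxe : ∀ y, M x y = if y = e then 1 else 0 := by
      intro y
      split_ifs with h
      · subst h; exact (hR.1 x hx y).resolve_left hx1
      · by_contra h3
        exact h (hR.2.1 x hx y e h3 hx1)
    have hx'e : M x' e' = 1 := (hR.1 x' (by simpa [hb] using hx') e').resolve_left hx'1
    have hx'e0 : x' ≠ e' := by rintro rfl; exact lt_irrefl _ hx'
    have hxe0 : x ≠ e' := by rintro rfl; rw [hb] at hx; exact lt_irrefl _ hx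
    -- final computation
    have hfin : rowSub (conj M e' e c) x' x c = rowSub M e' e c := by
      funext w y
      simp only [rowSub, conj]
      by_cases hw : w = x'
      · subst hw
        rw [if_neg hx'e0, if_pos rfl, if_neg hxe0, hxe y, hM1 x hx hxx.symm, hx'e]
        split_ifs <;> ring
      · rw [if_neg hw]
        have h3 : (if y = e then c * M w e' else 0) = 0 := by
          split_ifs with h
          · rcases lt_or_ge (blk e) (blk w) with h4 | h4
            · rw [hM1 w h4 hw, mul_zero]
            · rw [hM w e' (by omega), mul_zero]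
          · rfl
        rw [h3]; ring
    refine (rel_conj c hM hb hne).trans ?_
    rw [← hfin]
    rcases cons_le_cases hle with h4 | ⟨h4, h5⟩
    · exact rel_rowSub c h4
    · have hagree : ∀ a y, blk x < blk a → conj M e' e c a y = M a y := by
        intro a y ha
        have ha1 : a ≠ e' := by rintro rfl; omega
        have ha2 : a ≠ x' := by rintro rfl; omega
        rw [conj, if_neg ha1, hM1 a (by omega) ha2]
        simp
      refine ih m (conj M e' e c) x x' c (conj_low c hM hb) ?_ h4 hxx ?_ ?_ h5
      · refine ⟨fun w hw a => ?_, fun w hw a a' => ?_, fun w hw w' hw' a => ?_⟩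
        · rw [hagree w a hw]; exact hR.1 w (lt_trans hx hw) a
        · rw [hagree w a hw, hagree w a' hw]; exact hR.2.1 w (lt_trans hx hw) a a'
        · rw [hagree w a hw, hagree w' a hw']
          exact hR.2.2 w (lt_trans hx hw) w' (lt_trans hx hw') a
      · exact hx2.congr fun a b hab => hagree a b hab
      · exact hx'2.congr fun a b hab => hagree a b (by omega)

end Pool.Agent.R272.Rook
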