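import Pool.Agent.R272.Rook.Inv

set_option autoImplicit false

namespace Pool.Agent.R272.Rook

open Matrix Finset

variable {ι : Type*} [Fintype ι] [DecidableEq ι] {F : Type*} [Field F] {blk : ι → ℕ}

variable (blk) in
/-- `Past M w l`: `l` is the complete list of blocks of `w` and its predecessors -/
inductive Past (M : Matrix ι ι F) : ι → List ℕ → Prop
  | base (w : ι) (h : ∀ e, M w e = 0) : Past M w [blk w]
  | step (w e : ι) (l : List ℕ) (h1 : M w e ≠ 0) (h2 : Past M e l) : Past M w (blk w :: l)

omit [Fintype ι] [DecidableEq ι] in
lemma exists_past {M : Matrix ι ι F} (hM : IsLow blk M) (w : ι) : ∃ l, Past blk M w l := by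
  induction hk : blk w using Nat.strong_induction_on generalizing w with
  | _ k ih =>
    by_cases h : ∃ e, M w e ≠ 0
    · obtain ⟨e, he⟩ := h
      have hlt : blk e < blk w := by
        by_contra h1
        exact he (hM w e (by omega))
      obtain ⟨l, hl⟩ := ih (blk e) (by omega) e rfl
      exact ⟨_, Past.step w e l he hl⟩
    · push Not at h
      exact ⟨_, Past.base w h⟩

omit [Fintype ι] [DecidableEq ι] in
lemma past_unique {M : Matrix ι ι F} (hR : RookOn M Set.univ) {w : ι} {l l' : List ℕ}
    (h : Past blk M w l) (h' : Past blk M w l') : l = l' := by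
  induction h generalizing l' with
  | base w h =>
    cases h' with
    | base => rfl
    | step _ e _ h1 _ => exact absurd (h e) h1
  | step w e l h1 h2 ih =>
    cases h' with
    | base _ h => exact absurd (h e) h1
    | step _ e' l' h1' h2' =>
      have := hR.2.1 w trivial e e' h1 h1'
      subst this
      rw [ih h2']

omit [Fintype ι] [DecidableEq ι] in
lemma past_ne_nil {M : Matrix ι ι F} {w : ι} {l : List ℕ} (h : Past blk M w l) : l ≠ [] := by
  cases h <;> simp

omit [Fintype ι] [DecidableEq ι] in
lemma past_lt {M : Matrix ι ι F} {w : ι} {l : List ℕ} {N : ℕ} (hN : ∀ i, blk i < N)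
    (h : Past blk M w l) : ∀ b ∈ l, b < N := by
  induction h with
  | base w h => intro b hb; rw [List.mem_singleton] at hb; rw [hb]; exact hN w
  | step w e l h1 h2 ih =>
    intro b hb
    rcases List.mem_cons.mp hb with rfl | hb
    · exact hN w
    · exact ih b hb

/-- abstract properties of the function `w ↦ past list` -/
structure IsPast (blk : ι → ℕ) (M : Matrix ι ι F) (p : ι → List ℕ) : Prop where
  base : ∀ w, (∀ e, M w e = 0) → p w = [blk w]
  step : ∀ w e, M w e ≠ 0 → p w = blk w :: p e

omit [Fintype ι] [DecidableEq ι] in
lemma exists_isPast {M : Matrix ι ι F} (hM : IsLow blk M) (hR : RookOn M Set.univ) {N : ℕ}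
    (hN : ∀ i, blk i < N) :
    ∃ p : ι → List ℕ, IsPast blk M p ∧ (∀ w, ∀ b ∈ p w, b < N) := by
  choose p hp using fun w => exists_past hM w
  refine ⟨p, ⟨fun w hw => past_unique hR (hp w) (Past.base w hw), fun w e h =>
    past_unique hR (hp w) (Past.step w e _ h (hp e))⟩, fun w => past_lt hN (hp w)⟩

omit [Fintype ι] [DecidableEq ι] in
lemma IsPast.head {M : Matrix ι ι F} {p : ι → List ℕ} (hp : IsPast blk M p) (w : ι) :
    ∃ l, p w = blk w :: l := by
  by_cases h : ∃ e, M w e ≠ 0
  · obtain ⟨e, he⟩ := h
    exact ⟨_, hp.step w e he⟩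
  · push Not at h
    exact ⟨_, hp.base w h⟩

/-- `ZS` with full base minus `ZS` with empty base is the set of vertices with given past -/
lemma mem_ZS {M : Matrix ι ι F} (hM : IsLow blk M) (hR : RookOn M Set.univ) {p : ι → List ℕ}
    (hp : IsPast blk M p) : ∀ (L : List ℕ), L ≠ [] → ∀ w,
      (w ∈ ZS blk M (fun i => Finset.univ.filter fun k => blk k = i) L ↔
        (w ∈ ZS blk M (fun _ => ∅) L ∨ L <+: p w)) ∧
      (w ∈ ZS blk M (fun _ => ∅) L → ¬ L <+: p w) := by
  classical
  intro L
  induction L with
  | nil => intro h; exact absurd rfl h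
  | cons i L ih =>
    intro _ w
    cases L with
    | nil =>
      obtain ⟨l, hl⟩ := hp.head w
      simp only [ZS, Finset.mem_filter, Finset.mem_univ, true_and, Finset.notMem_empty, false_or,
        false_imp_iff, and_true, hl, List.cons_prefix_cons, List.nil_prefix]
      exact ⟨fun h => h.symm, fun h => h.symm⟩
    | cons j L =>
      have ih' := ih (by simp)
      simp only [ZS]
      -- characterise the prefix condition
      have hpre : (i :: j :: L) <+: p w ↔ blk w = i ∧ ∃ e, M w e ≠ 0 ∧ (j :: L) <+: p e := by
        constructor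
        · intro h
          by_cases he : ∃ e, M w e ≠ 0
          · obtain ⟨e, he⟩ := he
            rw [hp.step w e he, List.cons_prefix_cons] at h
            exact ⟨h.1.symm, e, he, h.2⟩
          · push Not at he
            rw [hp.base w he, List.cons_prefix_cons] at h
            exact absurd h.2 (by simp)
        · rintro ⟨h1, e, he, h2⟩
          rw [hp.step w e he, List.cons_prefix_cons]
          exact ⟨h1.symm, h2⟩
      have hblk : ∀ e, (j :: L) <+: p e → blk e = j := by
        intro e he
        obtain ⟨l, hl⟩ := hp.head e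
        rw [hl, List.cons_prefix_cons] at he
        exact he.1.symm
      split_ifs with hji
      · simp only [out, Finset.mem_filter, Finset.mem_univ, true_and]
        rw [hpre]
        constructor
        · constructor
          · rintro ⟨h1, e, he, h2⟩
            rcases h2 with h2 | ⟨h2, h3⟩
            · exact Or.inl ⟨h1, e, he, Or.inl h2⟩
            · rcases (ih' e).1.mp h3 with h4 | h4
              · exact Or.inl ⟨h1, e, he, Or.inr ⟨h2, h4⟩⟩
              · exact Or.inr ⟨h1, e, he, h4⟩
          · rintro (⟨h1, e, he, h2⟩ | ⟨h1, e, he, h2⟩)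
            · rcases h2 with h2 | ⟨h2, h3⟩
              · exact ⟨h1, e, he, Or.inl h2⟩
              · exact ⟨h1, e, he, Or.inr ⟨h2, (ih' e).1.mpr (Or.inl h3)⟩⟩
            · exact ⟨h1, e, he, Or.inr ⟨hblk e h2, (ih' e).1.mpr (Or.inr h2)⟩⟩
        · rintro ⟨h1, e, he, h2⟩ ⟨_, e', he', h3⟩
          have := hR.2.1 w trivial e e' he he'
          subst this
          rcases h2 with h2 | ⟨h2, h4⟩
          · have := hblk e h3; omega
          · exact (ih' e).2 h4 h3
      · rw [hpre]
        simp only [Finset.notMem_empty, false_or, false_iff, false_imp_iff, and_true]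
        rintro ⟨h1, e, he, h2⟩
        have h3 := hblk e h2
        exact he (hM w e (by omega))

open Classical in
/-- number of vertices with given past prefix -/
lemma card_prefix {M M' : Matrix ι ι F} (hM : IsLow blk M) (hR : RookOn M Set.univ)
    (hM' : IsLow blk M') (hR' : RookOn M' Set.univ) (hRel : Rel blk M M') {p p' : ι → List ℕ}
    (hp : IsPast blk M p) (hp' : IsPast blk M' p') {L : List ℕ} (hL : L ≠ []) :
    (Finset.univ.filter fun w => L <+: p w).card = (Finset.univ.filter fun w => L <+: p' w).card := by
  have key : ∀ (M : Matrix ι ι F) (p : ι → List ℕ), IsLow blk M → RookOn M Set.univ →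
      IsPast blk M p →
      (ZS blk M (fun i => Finset.univ.filter fun k => blk k = i) L).card =
        (ZS blk M (fun _ => ∅) L).card + (Finset.univ.filter fun w => L <+: p w).card := by
    intro M p hM hR hp
    rw [← Finset.card_union_of_disjoint]
    · congr 1
      ext w
      rw [Finset.mem_union, Finset.mem_filter]
      simp only [Finset.mem_univ, true_and]
      exact (mem_ZS hM hR hp L hL w).1
    · rw [Finset.disjoint_left]
      intro w hw hw'
      simp only [Finset.mem_filter, Finset.mem_univ, true_and] at hw'
      exact (mem_ZS hM hR hp L hL w).2 hw hw'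
  have h1 := key M p hM hR hp
  have h2 := key M' p' hM' hR' hp'
  have h3 := card_ZS_eq hRel hR hR' (fun _ => ∅) (Or.inl fun _ => rfl) L
  have h4 := card_ZS_eq hRel hR hR' (fun i => Finset.univ.filter fun k => blk k = i)
    (Or.inr fun _ => rfl) L
  omega

open Classical in
/-- from prefixes to complete lists -/
lemma card_fiber {N : ℕ} {p p' : ι → List ℕ} (hN : ∀ w, ∀ b ∈ p w, b < N)
    (hN' : ∀ w, ∀ b ∈ p' w, b < N) (hne : ∀ w, p w ≠ []) (hne' : ∀ w, p' w ≠ [])
    (h : ∀ L : List ℕ, L ≠ [] → (Finset.univ.filter fun w => L <+: p w).card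
      = (Finset.univ.filter fun w => L <+: p' w).card) (L : List ℕ) :
    (Finset.univ.filter fun w => p w = L).card = (Finset.univ.filter fun w => p' w = L).card := by
  by_cases hL : L = []
  · subst hL
    rw [Finset.filter_false_of_mem (fun w _ => hne w), Finset.filter_false_of_mem (fun w _ => hne' w)]
  · have key : ∀ p : ι → List ℕ, (∀ w, ∀ b ∈ p w, b < N) →
        (Finset.univ.filter fun w => L <+: p w).card =
          (Finset.univ.filter fun w => p w = L).card +
            ∑ b ∈ Finset.range N, (Finset.univ.filter fun w => (L ++ [b]) <+: p w).card := by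
      intro p hN
      have h1 : (Finset.univ.filter fun w => L <+: p w) =
          (Finset.univ.filter fun w => p w = L) ∪
            (Finset.univ.filter fun w => L <+: p w ∧ p w ≠ L) := by
        ext w
        simp only [Finset.mem_filter, Finset.mem_univ, true_and, Finset.mem_union]
        constructor
        · intro hw
          by_cases h2 : p w = L
          · exact Or.inl h2
          · exact Or.inr ⟨hw, h2⟩
        · rintro (hw | hw)
          · rw [hw]
          · exact hw.1
      rw [h1, Finset.card_union_of_disjoint]
      · congr 1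
        rw [Finset.card_eq_sum_card_fiberwise (f := fun w => (p w).getD L.length 0)
          (t := Finset.range N)]
        · refine Finset.sum_congr rfl fun b _ => ?_
          congr 1
          ext w
          simp only [Finset.mem_filter, Finset.mem_univ, true_and]
          constructor
          · rintro ⟨⟨⟨t, ht⟩, h3⟩, h4⟩
            cases t with
            | nil => rw [List.append_nil] at ht; exact absurd ht.symm h3
            | cons c t =>
              rw [← ht] at h4 ⊢
              have h5 : (L ++ c :: t).getD L.length 0 = c := by simp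
              rw [h5] at h4
              subst h4
              exact ⟨t, by simp⟩
          · rintro ⟨t, ht⟩
            rw [← ht]
            refine ⟨⟨⟨b :: t, by simp⟩, ?_⟩, by simp⟩
            intro h5
            have := congrArg List.length h5
            simp at this
        · intro w hw
          simp only [Finset.coe_filter, Finset.mem_univ, true_and, Set.mem_ofPred_eq] at hw
          obtain ⟨⟨t, ht⟩, h3⟩ := hw
          cases t with
          | nil => rw [List.append_nil] at ht; exact absurd ht.symm h3
          | cons c t =>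
            simp only [Finset.coe_range, Set.mem_Iio]
            rw [← ht]
            have h5 : (L ++ c :: t).getD L.length 0 = c := by simp
            rw [h5]
            exact hN w c (by rw [← ht]; simp)
      · rw [Finset.disjoint_left]
        intro w hw hw'
        simp only [Finset.mem_filter, Finset.mem_univ, true_and] at hw hw'
        exact hw'.2 hw
    have h1 := key p hN
    have h2 := key p' hN'
    have h3 : ∑ b ∈ Finset.range N, (Finset.univ.filter fun w => (L ++ [b]) <+: p w).card
        = ∑ b ∈ Finset.range N, (Finset.univ.filter fun w => (L ++ [b]) <+: p' w).card :=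
      Finset.sum_congr rfl fun b _ => h _ (by simp)
    have h4 := h L hL
    omega

open Classical in
/-- vertices whose past has tail `L` -/
lemma card_tail {N : ℕ} {p p' : ι → List ℕ} (hN : ∀ w, ∀ b ∈ p w, b < N)
    (hN' : ∀ w, ∀ b ∈ p' w, b < N) (hne : ∀ w, p w ≠ []) (hne' : ∀ w, p' w ≠ [])
    (h : ∀ L : List ℕ, (Finset.univ.filter fun w => p w = L).card
      = (Finset.univ.filter fun w => p' w = L).card) (L : List ℕ) :
    (Finset.univ.filter fun w => (p w).tail = L).card
      = (Finset.univ.filter fun w => (p' w).tail = L).card := by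
  have key : ∀ p : ι → List ℕ, (∀ w, ∀ b ∈ p w, b < N) → (∀ w, p w ≠ []) →
      (Finset.univ.filter fun w => (p w).tail = L).card =
        ∑ b ∈ Finset.range N, (Finset.univ.filter fun w => p w = b :: L).card := by
    intro p hN hne
    rw [Finset.card_eq_sum_card_fiberwise (f := fun w => (p w).headD 0) (t := Finset.range N)]
    · refine Finset.sum_congr rfl fun b _ => ?_
      congr 1
      ext w
      simp only [Finset.mem_filter, Finset.mem_univ, true_and]
      obtain ⟨c, t, hct⟩ := List.exists_cons_of_ne_nil (hne w)
      rw [hct]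
      simp only [List.tail_cons, List.headD_cons, List.cons.injEq]
      tauto
    · intro w _
      obtain ⟨c, t, hct⟩ := List.exists_cons_of_ne_nil (hne w)
      simp only [Finset.coe_range, Set.mem_Iio, hct, List.headD_cons]
      exact hN w c (by rw [hct]; simp)
  rw [key p hN hne, key p' hN' hne']
  exact Finset.sum_congr rfl fun b _ => h _

open Classical in
/-- vertices with past `L` that have a successor -/
lemma card_nonsink {M : Matrix ι ι F} (hR : RookOn M Set.univ) {p : ι → List ℕ}
    (hp : IsPast blk M p) {L : List ℕ} (hL : L ≠ []) :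
    (Finset.univ.filter fun w => (p w).tail = L).card =
      (Finset.univ.filter fun w => p w = L ∧ ∃ u, M u w ≠ 0).card := by
  refine Finset.card_bij' (fun u _ => if h : ∃ e, M u e ≠ 0 then h.choose else u)
    (fun w _ => if h : ∃ u, M u w ≠ 0 then h.choose else w) ?_ ?_ ?_ ?_
  · intro u hu
    simp only [Finset.mem_filter, Finset.mem_univ, true_and] at hu ⊢
    by_cases h : ∃ e, M u e ≠ 0
    · rw [dif_pos h]
      have h1 := h.choose_spec
      rw [hp.step u _ h1] at hu
      exact ⟨hu, u, h1⟩
    · push Not at h
      rw [hp.base u h] at hu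
      exact absurd hu.symm hL
  · intro w hw
    simp only [Finset.mem_filter, Finset.mem_univ, true_and] at hw ⊢
    rw [dif_pos hw.2, hp.step _ w hw.2.choose_spec]
    exact hw.1
  · intro u hu
    simp only [Finset.mem_filter, Finset.mem_univ, true_and] at hu
    by_cases h : ∃ e, M u e ≠ 0
    · have h1 := h.choose_spec
      have h2 : ∃ u', M u' h.choose ≠ 0 := ⟨u, h1⟩
      simp only [dif_pos h, dif_pos h2]
      exact hR.2.2 _ trivial _ trivial _ h2.choose_spec h1
    · push Not at h
      rw [hp.base u h] at hu
      exact absurd hu.symm hL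
  · intro w hw
    simp only [Finset.mem_filter, Finset.mem_univ, true_and] at hw
    have h1 := hw.2.choose_spec
    have h2 : ∃ e, M hw.2.choose e ≠ 0 := ⟨w, h1⟩
    simp only [dif_pos hw.2, dif_pos h2]
    exact hR.2.1 _ trivial _ _ h2.choose_spec h1

open Classical in
lemma card_sink {M M' : Matrix ι ι F} (hM : IsLow blk M) (hR : RookOn M Set.univ)
    (hM' : IsLow blk M') (hR' : RookOn M' Set.univ) (hRel : Rel blk M M') {p p' : ι → List ℕ}
    (hp : IsPast blk M p) (hp' : IsPast blk M' p') {N : ℕ} (hN : ∀ w, ∀ b ∈ p w, b < N)
    (hN' : ∀ w, ∀ b ∈ p' w, b < N) {L : List ℕ} (hL : L ≠ []) :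
    (Finset.univ.filter fun w => p w = L ∧ ∀ u, M u w = 0).card
      = (Finset.univ.filter fun w => p' w = L ∧ ∀ u, M' u w = 0).card := by
  have hne : ∀ w, p w ≠ [] := by intro w; obtain ⟨l, hl⟩ := hp.head w; rw [hl]; simp
  have hne' : ∀ w, p' w ≠ [] := by intro w; obtain ⟨l, hl⟩ := hp'.head w; rw [hl]; simp
  have h1 := card_fiber hN hN' hne hne' (fun L hL => card_prefix hM hR hM' hR' hRel hp hp' hL)
  have h2 := card_tail hN hN' hne hne' h1 L
  rw [card_nonsink hR hp hL, card_nonsink hR' hp' hL] at h2
  have key : ∀ (M : Matrix ι ι F) (p : ι → List ℕ), (Finset.univ.filter fun w => p w = L).card =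
      (Finset.univ.filter fun w => p w = L ∧ ∃ u, M u w ≠ 0).card +
        (Finset.univ.filter fun w => p w = L ∧ ∀ u, M u w = 0).card := by
    intro M p
    rw [← Finset.card_union_of_disjoint]
    · congr 1
      ext w
      simp only [Finset.mem_filter, Finset.mem_univ, true_and, Finset.mem_union]
      constructor
      · intro h
        by_cases h3 : ∃ u, M u w ≠ 0
        · exact Or.inl ⟨h, h3⟩
        · push Not at h3
          exact Or.inr ⟨h, h3⟩
      · rintro (h | h) <;> exact h.1
    · rw [Finset.disjoint_left]
      intro w hw hw'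
      simp only [Finset.mem_filter, Finset.mem_univ, true_and] at hw hw'
      obtain ⟨u, hu⟩ := hw.2
      exact hu (hw'.2 u)
  have h3 := key M p
  have h4 := key M' p'
  have h5 := h1 L
  omega

end Pool.Agent.R272.Rook
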