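import Pool.Agent.R272.Rook.Comb

set_option autoImplicit false

namespace Pool.Agent.R272.Rook

open Matrix Finset

variable {ι : Type*} [Fintype ι] [DecidableEq ι] {F : Type*} [Field F] {blk : ι → ℕ}

omit [Fintype ι] in
lemma exists_match {A B : Finset ι} (h : A.card = B.card) :
    ∃ f : ι → ι, (∀ a ∈ A, f a ∈ B) ∧ ∀ a ∈ A, ∀ b ∈ A, f a = f b → a = b := by
  let e := Finset.equivOfCardEq h
  refine ⟨fun a => if h : a ∈ A then (e ⟨a, h⟩ : ι) else a, ?_, ?_⟩
  · intro a ha
    simp only [dif_pos ha]
    exact (e ⟨a, ha⟩).2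
  · intro a ha b hb hab
    simp only [dif_pos ha, dif_pos hb] at hab
    have := e.injective (Subtype.ext hab)
    exact congrArg Subtype.val this

open Classical in
/-- extension of a map of sinks to all vertices -/
noncomputable def W {M : Matrix ι ι F} (hM : IsLow blk M) (N : ℕ) (hN : ∀ i, blk i < N)
    (M' : Matrix ι ι F) (σ : ι → ι) (v : ι) : ι :=
  if h : ∃ w, M w v ≠ 0 then
    (if h2 : ∃ e, M' (W hM N hN M' σ h.choose) e ≠ 0 then h2.choose else v)
  else σ v
termination_by N - blk v
decreasing_by
  have h1 : blk v < blk h.choose := by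
    by_contra hc
    exact h.choose_spec (hM _ _ (by omega))
  have := hN h.choose
  omega

theorem exists_perm {M M' : Matrix ι ι F} (hM : IsLow blk M) (hR : RookOn M Set.univ)
    (hM' : IsLow blk M') (hR' : RookOn M' Set.univ) (hRel : Rel blk M M') :
    ∃ π : Equiv.Perm ι, (∀ v, blk (π v) = blk v) ∧
      ∀ w v, M' (π w) (π v) ≠ 0 ↔ M w v ≠ 0 := by
  classical
  obtain ⟨N, hNb⟩ : ∃ N, ∀ i, blk i < N :=
    ⟨(Finset.univ.sup blk) + 1, fun i => Nat.lt_succ_of_le (Finset.le_sup (Finset.mem_univ i))⟩
  obtain ⟨p, hp, hN⟩ := exists_isPast hM hR hNb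
  obtain ⟨p', hp', hN'⟩ := exists_isPast hM' hR' hNb
  have hsink : ∀ L : List ℕ, ∃ f : ι → ι,
      (∀ w, p w = L → (∀ u, M u w = 0) → p' (f w) = L ∧ ∀ u, M' u (f w) = 0) ∧
      (∀ w1 w2, p w1 = L → (∀ u, M u w1 = 0) → p w2 = L → (∀ u, M u w2 = 0) → f w1 = f w2 →
        w1 = w2) := by
    intro L
    by_cases hL : L = []
    · refine ⟨id, fun w hw => ?_, fun w1 w2 hw => ?_⟩
      · obtain ⟨l, hl⟩ := hp.head w
        rw [hl, hL] at hw
        exact absurd hw (by simp)
      · obtain ⟨l, hl⟩ := hp.head w1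
        rw [hl, hL] at hw
        exact absurd hw (by simp)
    · obtain ⟨f, hf1, hf2⟩ := exists_match (card_sink hM hR hM' hR' hRel hp hp' hN hN' hL)
      refine ⟨f, fun w hw hs => ?_, fun w1 w2 h1 s1 h2 s2 => ?_⟩
      · have := hf1 w (by simp [hw, hs])
        simpa using this
      · exact hf2 w1 (by simp [h1, s1]) w2 (by simp [h2, s2])
  choose f hf1 hf2 using hsink
  set σ : ι → ι := fun w => f (p w) w with hσ
  have hσ1 : ∀ w, (∀ u, M u w = 0) → p' (σ w) = p w ∧ ∀ u, M' u (σ w) = 0 :=
    fun w hw => hf1 (p w) w rfl hw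
  have hσ2 : ∀ w1 w2, (∀ u, M u w1 = 0) → (∀ u, M u w2 = 0) → σ w1 = σ w2 → w1 = w2 := by
    intro w1 w2 s1 s2 h
    have h3 : p w1 = p w2 := by rw [← (hσ1 w1 s1).1, ← (hσ1 w2 s2).1, h]
    refine hf2 (p w1) w1 w2 rfl s1 h3.symm s2 ?_
    have h4 : f (p w1) w1 = f (p w2) w2 := h
    rw [h4, h3]
  let V := W hM N hNb M' σ
  have hVsink : ∀ v, (∀ u, M u v = 0) → V v = σ v := by
    intro v hv
    have : ¬ ∃ w, M w v ≠ 0 := by push Not; exact hv
    show W hM N hNb M' σ v = σ v
    rw [W, dif_neg this]
  have hlt : ∀ w v, M w v ≠ 0 → blk v < blk w := by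
    intro w v h
    by_contra hc
    exact h (hM _ _ (by omega))
  -- main induction
  have main : ∀ v, p' (V v) = p v ∧ ∀ w, M w v ≠ 0 → M' (V w) (V v) ≠ 0 := by
    intro v
    induction hk : N - blk v using Nat.strong_induction_on generalizing v with
    | _ k ih =>
      by_cases h : ∃ w, M w v ≠ 0
      · have hc := h.choose_spec
        set w := h.choose with hw
        have hb := hlt w v hc
        have ih1 := (ih (N - blk w) (by have := hNb w; omega) w rfl).1
        rw [hp.step w v hc] at ih1
        have h2 : ∃ e, M' (V w) e ≠ 0 := by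
          by_contra h3
          push Not at h3
          rw [hp'.base _ h3] at ih1
          obtain ⟨l, hl⟩ := hp.head v
          rw [hl] at ih1
          simp at ih1
        have hV : V v = h2.choose := by
          show W hM N hNb M' σ v = _
          rw [W, dif_pos h, dif_pos h2]
        have h4 := h2.choose_spec
        rw [← hV] at h4
        refine ⟨?_, ?_⟩
        · rw [hp'.step _ _ h4] at ih1
          exact (List.cons.inj ih1).2
        · intro w' hw'
          have : w' = w := hR.2.2 w' trivial w trivial v hw' hc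
          rw [this]
          exact h4
      · push Not at h
        rw [hVsink v h]
        exact ⟨(hσ1 v h).1, fun w hw => absurd (h w) hw⟩
  have hblk : ∀ v, blk (V v) = blk v := by
    intro v
    have h1 := (main v).1
    obtain ⟨l, hl⟩ := hp.head v
    obtain ⟨l', hl'⟩ := hp'.head (V v)
    rw [hl, hl'] at h1
    exact (List.cons.inj h1).1
  have hinj : Function.Injective V := by
    intro v1
    induction hk : N - blk v1 using Nat.strong_induction_on generalizing v1 with
    | _ k ih =>
      intro v2 h12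
      by_cases s1 : ∀ u, M u v1 = 0
      · by_cases s2 : ∀ u, M u v2 = 0
        · rw [hVsink v1 s1, hVsink v2 s2] at h12
          exact hσ2 v1 v2 s1 s2 h12
        · push Not at s2
          obtain ⟨u, hu⟩ := s2
          have h3 := (main v2).2 u hu
          rw [← h12, hVsink v1 s1] at h3
          exact absurd ((hσ1 v1 s1).2 _) h3
      · push Not at s1
        obtain ⟨w1, hw1⟩ := s1
        have h3 := (main v1).2 w1 hw1
        by_cases s2 : ∀ u, M u v2 = 0
        · rw [h12, hVsink v2 s2] at h3
          exact absurd ((hσ1 v2 s2).2 _) h3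
        · push Not at s2
          obtain ⟨w2, hw2⟩ := s2
          have h4 := (main v2).2 w2 hw2
          rw [← h12] at h4
          have h5 : V w1 = V w2 := hR'.2.2 _ trivial _ trivial _ h3 h4
          have hb := hlt w1 v1 hw1
          have h6 := ih (N - blk w1) (by have := hNb w1; omega) rfl h5
          subst h6
          exact hR.2.1 w1 trivial _ _ hw1 hw2
  refine ⟨Equiv.ofBijective V (Finite.injective_iff_bijective.mp hinj), hblk, ?_⟩
  intro w v
  constructor
  · intro h
    have h0 : M' (V w) (V v) ≠ 0 := h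
    have h1 := (main w).1
    rw [hp'.step _ _ h0] at h1
    by_cases hu : ∃ u, M w u ≠ 0
    · obtain ⟨u, hu⟩ := hu
      have h2 := (main u).2 w hu
      have h3 := hR'.2.1 _ trivial _ _ h0 h2
      rw [hinj h3]
      exact hu
    · push Not at hu
      rw [hp.base w hu] at h1
      obtain ⟨l', hl'⟩ := hp'.head (V v)
      rw [hl'] at h1
      simp at h1
  · intro h
    exact (main v).2 w h

end Pool.Agent.R272.Rook
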