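import Pool.Agent.R272.Rook.Elim
import Pool.Agent.R272.Rook.Perm

set_option autoImplicit false

namespace Pool.Agent.R272.Rook

open Matrix Finset

universe u

variable (F : Type u) [Field F] {n : ℕ} (c : Composition n)

/-- The algebra `J` of matrices supported strictly above the diagonal blocks of the
composition `c` of `n` (`c.index i` is the block containing `i`). -/
def J : Submodule F (Matrix (Fin n) (Fin n) F) where
  carrier := {x | ∀ i j, ¬ c.index i < c.index j → x i j = 0}
  zero_mem' := fun _ _ _ => rfl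
  add_mem' := by
    intro x y hx hy i j h
    rw [Matrix.add_apply, hx i j h, hy i j h, add_zero]
  smul_mem' := by
    intro t x hx i j h
    rw [Matrix.smul_apply, hx i j h, smul_zero]

variable {F}

/-- `λ` and `λ'` in `J^*` are equivalent: `λ'(x) = λ(b r⁻¹ x r a)` for all `x ∈ J`, for some
block diagonal invertible `r` and some `a, b ∈ 1 + J`. -/
def Equivalent (l l' : Module.Dual F (J F c)) : Prop :=
  ∃ (r : (Matrix (Fin n) (Fin n) F)ˣ) (a b : Matrix (Fin n) (Fin n) F),
    (∀ i j, c.index i ≠ c.index j → (r : Matrix (Fin n) (Fin n) F) i j = 0) ∧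
    a - 1 ∈ J F c ∧ b - 1 ∈ J F c ∧
    ∀ x : J F c, ∃ y : J F c,
      (y : Matrix (Fin n) (Fin n) F) = b * (↑r⁻¹ : Matrix (Fin n) (Fin n) F) * x * r * a ∧
        l' x = l y

/-- A rook placement contained in `Δ_J`. -/
def IsRook (D : Finset (Fin n × Fin n)) : Prop :=
  (∀ α ∈ D, c.index α.1 < c.index α.2) ∧
  (∀ α ∈ D, ∀ β ∈ D, α.1 = β.1 → α = β) ∧ (∀ α ∈ D, ∀ β ∈ D, α.2 = β.2 → α = β)

/-- The form `λ_D = ∑_{α ∈ D} E_α^*`. -/
def lam (D : Finset (Fin n × Fin n)) : Module.Dual F (J F c) where
  toFun x := ∑ α ∈ D, (x : Matrix (Fin n) (Fin n) F) α.1 α.2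
  map_add' x y := by
    rw [← Finset.sum_add_distrib]; rfl
  map_smul' t x := by
    rw [RingHom.id_apply, smul_eq_mul, Finset.mul_sum]; rfl

/-! ### translation -/

/-- block function with values in `ℕ` -/
def bl (i : Fin n) : ℕ := c.index i

lemma mem_J_iff {x : Matrix (Fin n) (Fin n) F} : x ∈ J F c ↔ SUp (bl c) x := by
  constructor
  · intro h i j hij
    exact h i j (by rw [not_lt, Fin.le_def]; exact hij)
  · intro h i j hij
    rw [not_lt, Fin.le_def] at hij
    exact h i j hij

/-- basis vectors -/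
def eb (e w : Fin n) : J F c :=
  ⟨if bl c e < bl c w then Matrix.single e w 1 else 0, by
    rw [mem_J_iff]
    split_ifs with h
    · exact single_sup _ h
    · exact sup_zero⟩

/-- the matrix of a form -/
def mat (l : Module.Dual F (J F c)) : Matrix (Fin n) (Fin n) F := fun w e => l (eb c e w)

lemma mat_low (l : Module.Dual F (J F c)) : IsLow (bl c) (mat c l) := by
  intro w e h
  have : eb (F := F) c e w = 0 := by
    apply Subtype.ext
    simp only [eb]
    rw [if_neg (by omega)]
    rfl
  rw [mat, this, map_zero]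

lemma expand (x : J F c) : x = ∑ e, ∑ w, (x : Matrix (Fin n) (Fin n) F) e w • eb c e w := by
  apply Subtype.ext
  ext i j
  simp only [Submodule.coe_sum, Submodule.coe_smul, Matrix.sum_apply, Matrix.smul_apply]
  rw [Finset.sum_eq_single i, Finset.sum_eq_single j]
  · simp only [eb]
    split_ifs with h
    · simp
    · rw [(mem_J_iff c).mp x.2 i j (by omega)]; simp
  · intro w _ hw
    simp only [eb]
    split_ifs
    · rw [Matrix.single_apply_of_col_ne _ _ hw]; simp
    · simp
  · simp
  · intro e _ he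
    refine Finset.sum_eq_zero fun w _ => ?_
    simp only [eb]
    split_ifs
    · rw [Matrix.single_apply_of_row_ne he]; simp
    · simp
  · simp

lemma apply_eq_trace (l : Module.Dual F (J F c)) (x : J F c) :
    l x = Matrix.trace (mat c l * (x : Matrix (Fin n) (Fin n) F)) := by
  conv_lhs => rw [expand c x]
  rw [map_sum, Matrix.trace]
  simp only [map_sum, map_smul, smul_eq_mul, Matrix.diag_apply, Matrix.mul_apply]
  rw [Finset.sum_comm]
  refine Finset.sum_congr rfl fun w _ => Finset.sum_congr rfl fun e _ => ?_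
  rw [mat, mul_comm]

/-- the trace pairing with `J` only sees the lower part -/
lemma trace_congr {A B x : Matrix (Fin n) (Fin n) F} (hx : SUp (bl c) x)
    (h : ∀ w e, bl c e < bl c w → A w e = B w e) :
    Matrix.trace (A * x) = Matrix.trace (B * x) := by
  simp only [Matrix.trace, Matrix.diag_apply, Matrix.mul_apply]
  refine Finset.sum_congr rfl fun w _ => Finset.sum_congr rfl fun e _ => ?_
  rcases Nat.lt_or_ge (bl c e) (bl c w) with h1 | h1
  · rw [h w e h1]
  · rw [hx e w h1, mul_zero, mul_zero]

lemma trace_eb (A : Matrix (Fin n) (Fin n) F) {w e : Fin n} (h : bl c e < bl c w) :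
    Matrix.trace (A * ((eb c e w : J F c) : Matrix (Fin n) (Fin n) F)) = A w e := by
  simp only [eb, if_pos h, Matrix.trace, Matrix.diag_apply, Matrix.mul_apply]
  rw [Finset.sum_eq_single w, Finset.sum_eq_single e]
  · simp
  · intro m _ hm
    rw [Matrix.single_apply_of_row_ne (Ne.symm hm), mul_zero]
  · simp
  · intro m _ hm
    refine Finset.sum_eq_zero fun k _ => ?_
    rw [Matrix.single_apply_of_col_ne _ _ (Ne.symm hm), mul_zero]
  · simp

/-- block diagonal matrices have block diagonal inverses -/
lemma dg_inv {r s : Matrix (Fin n) (Fin n) F}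
    (hr' : ∀ i j, bl c i ≠ bl c j → r i j = 0) (hrs : r * s = 1) (hsr : s * r = 1) :
    Up (bl c) s := by
  -- `s i j` for `bl j < bl i`: compare with its block diagonal part
  have hdiag : Dg (bl c) s * r = 1 := by
    ext i k
    rw [Matrix.mul_apply]
    have h1 := congrFun (congrFun hsr i) k
    rw [Matrix.mul_apply] at h1
    by_cases hik : bl c i = bl c k
    · rw [← h1]
      refine Finset.sum_congr rfl fun m _ => ?_
      simp only [Dg]
      split_ifs with h2
      · rfl
      · rw [hr' m k (by omega), mul_zero, mul_zero]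
    · rw [Matrix.one_apply_ne (by rintro rfl; exact hik rfl)]
      refine Finset.sum_eq_zero fun m _ => ?_
      simp only [Dg]
      split_ifs with h2
      · rw [hr' m k (by omega), mul_zero]
      · rw [zero_mul]
  have : s = Dg (bl c) s := by
    calc s = (Dg (bl c) s * r) * s := by rw [hdiag, Matrix.one_mul]
      _ = Dg (bl c) s := by rw [Matrix.mul_assoc, hrs, Matrix.mul_one]
  intro i j hij
  rw [this]
  simp only [Dg]
  rw [if_neg (by omega)]

lemma rel_of_equivalent {l l' : Module.Dual F (J F c)} (h : Equivalent c l l') :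
    Rel (bl c) (mat c l) (mat c l') := by
  obtain ⟨r, a, b, hr, ha, hb, hxy⟩ := h
  rw [mem_J_iff] at ha hb
  have hRS : (r : Matrix (Fin n) (Fin n) F) * ((r⁻¹ : (Matrix (Fin n) (Fin n) F)ˣ) :
    Matrix (Fin n) (Fin n) F) = 1 := Units.mul_inv r
  have hSR : ((r⁻¹ : (Matrix (Fin n) (Fin n) F)ˣ) :
    Matrix (Fin n) (Fin n) F) * (r : Matrix (Fin n) (Fin n) F) = 1 := Units.inv_mul r
  generalize (r : Matrix (Fin n) (Fin n) F) = R at *
  generalize ((r⁻¹ : (Matrix (Fin n) (Fin n) F)ˣ) : Matrix (Fin n) (Fin n) F) = S at *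
  have hr' : ∀ i j, bl c i ≠ bl c j → R i j = 0 := by
    intro i j hij
    exact hr i j (fun h => hij (by rw [bl, bl, h]))
  have hrU : Up (bl c) R := fun i j hij => hr' i j (by omega)
  have hsU : Up (bl c) S := dg_inv c hr' hRS hSR
  have haU : Up (bl c) a := by
    have := up_one.add ha.up
    rwa [add_sub_cancel] at this
  have hbU : Up (bl c) b := by
    have := up_one.add hb.up
    rwa [add_sub_cancel] at this
  refine ⟨R * a, b * S, hrU.mul haU, hbU.mul hsU, ?_, ?_, ?_⟩
  · have h1 : R * a * (b * S) - 1 = R * ((a - 1) * b + (b - 1)) * S := by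
      calc R * a * (b * S) - 1
          = R * a * (b * S) - R * S := by rw [hRS]
        _ = R * ((a - 1) * b + (b - 1)) * S := by noncomm_ring
    rw [h1]
    exact (SUp.mul_left hrU ((ha.mul_right hbU).add hb)).mul_right hsU
  · have h1 : b * S * (R * a) - 1 = (b - 1) * a + (a - 1) := by
      have h2 : b * S * (R * a) = b * a := by
        rw [Matrix.mul_assoc, ← Matrix.mul_assoc S, hSR, Matrix.one_mul]
      rw [h2]; noncomm_ring
    rw [h1]
    exact (hb.mul_right haU).add ha
  · intro w e hwe
    obtain ⟨y, hy1, hy2⟩ := hxy (eb c e w)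
    have h1 : mat c l' w e = l' (eb c e w) := rfl
    have h2 := trace_eb c (R * a * mat c l * (b * S)) hwe
    rw [h1, hy2, apply_eq_trace, hy1, ← h2]
    rw [show mat c l * (b * S * ((eb c e w : J F c) : Matrix (Fin n) (Fin n) F) * R * a)
      = (mat c l * (b * S) * ((eb c e w : J F c) : Matrix (Fin n) (Fin n) F)) * (R * a) by
        simp only [Matrix.mul_assoc]]
    rw [Matrix.trace_mul_comm]
    simp only [Matrix.mul_assoc]

lemma Dg_up (g : Matrix (Fin n) (Fin n) F) : Up (bl c) (Dg (bl c) g) := by
  intro i j hij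
  rw [Dg, if_neg (by omega)]

lemma Dg_mul_sub {g h : Matrix (Fin n) (Fin n) F} (hg : Up (bl c) g) (hh : Up (bl c) h)
    (hhg : SUp (bl c) (h * g - 1)) : SUp (bl c) (Dg (bl c) h * g - 1) := by
  intro i k hik
  rcases Nat.lt_or_ge (bl c k) (bl c i) with h1 | h1
  · have := ((Dg_up c h).mul hg) i k h1
    rw [Matrix.sub_apply, this, Matrix.one_apply_ne (by rintro rfl; omega), sub_zero]
  · have h2 := hhg i k hik
    rw [← h2, Matrix.sub_apply, Matrix.sub_apply, Matrix.mul_apply, Matrix.mul_apply]
    congr 1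
    refine Finset.sum_congr rfl fun m _ => ?_
    simp only [Dg]
    split_ifs with h3
    · rfl
    · rw [zero_mul]
      rcases Nat.lt_or_ge (bl c m) (bl c i) with h4 | h4
      · rw [hh i m h4, zero_mul]
      · rw [hg m k (by omega), mul_zero]

lemma mul_Dg_sub {g h : Matrix (Fin n) (Fin n) F} (hg : Up (bl c) g) (hh : Up (bl c) h)
    (hhg : SUp (bl c) (h * g - 1)) : SUp (bl c) (h * Dg (bl c) g - 1) := by
  intro i k hik
  rcases Nat.lt_or_ge (bl c k) (bl c i) with h1 | h1
  · have := (hh.mul (Dg_up c g)) i k h1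
    rw [Matrix.sub_apply, this, Matrix.one_apply_ne (by rintro rfl; omega), sub_zero]
  · have h2 := hhg i k hik
    rw [← h2, Matrix.sub_apply, Matrix.sub_apply, Matrix.mul_apply, Matrix.mul_apply]
    congr 1
    refine Finset.sum_congr rfl fun m _ => ?_
    simp only [Dg]
    split_ifs with h3
    · rfl
    · rw [mul_zero]
      rcases Nat.lt_or_ge (bl c m) (bl c i) with h4 | h4
      · rw [hh i m h4, zero_mul]
      · rw [hg m k (by omega), mul_zero]

lemma equivalent_of_rel {l l' : Module.Dual F (J F c)} (h : Rel (bl c) (mat c l) (mat c l')) :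
    Equivalent c l l' := by
  obtain ⟨g, h, hg, hh, hgh, hhg, e1⟩ := h
  have h1 : Dg (bl c) g * Dg (bl c) h = 1 := Dg_mul hg hh hgh
  have h2 : Dg (bl c) h * Dg (bl c) g = 1 := Dg_mul hh hg hhg
  refine ⟨⟨Dg (bl c) g, Dg (bl c) h, h1, h2⟩, Dg (bl c) h * g, h * Dg (bl c) g, ?_, ?_, ?_, ?_⟩
  · intro i j hij
    show Dg (bl c) g i j = 0
    rw [Dg, if_neg]
    intro h; exact hij (Fin.ext h)
  · rw [mem_J_iff]; exact Dg_mul_sub c hg hh hhg
  · rw [mem_J_iff]; exact mul_Dg_sub c hg hh hhg
  · intro x
    have hx := (mem_J_iff c).mp x.2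
    refine ⟨⟨h * x * g, (mem_J_iff c).mpr ((SUp.mul_left hh hx).mul_right hg)⟩, ?_, ?_⟩
    · show h * (x : Matrix (Fin n) (Fin n) F) * g
        = h * Dg (bl c) g * Dg (bl c) h * x * Dg (bl c) g * (Dg (bl c) h * g)
      have e2 : h * Dg (bl c) g * Dg (bl c) h = h := by
        rw [Matrix.mul_assoc, h1, Matrix.mul_one]
      have e3 : h * (x : Matrix (Fin n) (Fin n) F) * Dg (bl c) g * (Dg (bl c) h * g)
          = h * (x : Matrix (Fin n) (Fin n) F) * g := by
        rw [Matrix.mul_assoc (h * (x : Matrix (Fin n) (Fin n) F)), ← Matrix.mul_assoc (Dg (bl c) g),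
          h1, Matrix.one_mul]
      rw [e2, e3]
    · rw [apply_eq_trace, trace_congr c hx e1, apply_eq_trace]
      show _ = Matrix.trace (mat c l * (h * (x : Matrix (Fin n) (Fin n) F) * g))
      have e5 : Matrix.trace (mat c l * (h * (x : Matrix (Fin n) (Fin n) F) * g))
          = Matrix.trace (g * (mat c l * h * (x : Matrix (Fin n) (Fin n) F))) := by
        rw [show mat c l * (h * (x : Matrix (Fin n) (Fin n) F) * g)
          = (mat c l * h * (x : Matrix (Fin n) (Fin n) F)) * g by simp only [Matrix.mul_assoc],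
          Matrix.trace_mul_comm]
      rw [e5]
      simp only [Matrix.mul_assoc]

lemma mat_lam {D : Finset (Fin n × Fin n)} (hD : IsRook c D) (w e : Fin n) :
    mat c (lam (F := F) c D) w e = if (e, w) ∈ D then 1 else 0 := by
  show ∑ α ∈ D, ((eb c e w : J F c) : Matrix (Fin n) (Fin n) F) α.1 α.2 = _
  simp only [eb]
  split_ifs with h1 h2 h2
  · rw [Finset.sum_eq_single (e, w)]
    · simp
    · intro α _ hα
      rw [Matrix.single_apply, if_neg]
      rintro ⟨h3, h4⟩
      exact hα (Prod.ext h3.symm h4.symm)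
    · intro h; exact absurd h2 h
  · refine Finset.sum_eq_zero fun α hα => ?_
    rw [Matrix.single_apply, if_neg]
    rintro ⟨h3, h4⟩
    exact h2 (by rw [h3, h4]; exact hα)
  · exact absurd (hD.1 _ h2) h1
  · simp

lemma rook_lam {D : Finset (Fin n × Fin n)} (hD : IsRook c D) :
    RookOn (mat c (lam (F := F) c D)) Set.univ := by
  refine ⟨fun w _ e => ?_, fun w _ e e' h1 h2 => ?_, fun w _ w' _ e h1 h2 => ?_⟩
  · rw [mat_lam c hD]; split_ifs <;> simp
  · rw [mat_lam c hD] at h1 h2
    have h3 : (e, w) ∈ D := by by_contra h; simp [h] at h1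
    have h4 : (e', w) ∈ D := by by_contra h; simp [h] at h2
    exact congrArg Prod.fst (hD.2.2 _ h3 _ h4 rfl)
  · rw [mat_lam c hD] at h1 h2
    have h3 : (e, w) ∈ D := by by_contra h; simp [h] at h1
    have h4 : (e, w') ∈ D := by by_contra h; simp [h] at h2
    exact congrArg Prod.snd (hD.2.1 _ h3 _ h4 rfl)

theorem exists_equivalent (l : Module.Dual F (J F c)) :
    ∃ D, IsRook c D ∧ Equivalent c l (lam c D) := by
  classical
  obtain ⟨M', h1, h2, h3⟩ := exists_rook (mat_low c l)
  let D : Finset (Fin n × Fin n) := Finset.univ.filter fun q => M' q.2 q.1 ≠ 0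
  have hmem : ∀ e w, (e, w) ∈ D ↔ M' w e ≠ 0 := by intro e w; simp [D]
  have hD : IsRook c D := by
    refine ⟨?_, ?_, ?_⟩
    · rintro ⟨e, w⟩ h
      rw [hmem] at h
      by_contra hc
      rw [not_lt, Fin.le_def] at hc
      exact h (h2 w e hc)
    · rintro ⟨e, w⟩ h ⟨e', w'⟩ h' (rfl : e = e')
      rw [hmem] at h h'
      rw [h3.2.2 w trivial w' trivial e h h']
    · rintro ⟨e, w⟩ h ⟨e', w'⟩ h' (rfl : w = w')
      rw [hmem] at h h'
      rw [h3.2.1 w trivial e e' h h']
  refine ⟨D, hD, equivalent_of_rel c ?_⟩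
  have : mat c (lam (F := F) c D) = M' := by
    ext w e
    rw [mat_lam c hD]
    split_ifs with h
    · rw [hmem] at h
      exact ((h3.1 w trivial e).resolve_left h).symm
    · rw [hmem, not_not] at h
      exact h.symm
  rw [this]
  exact h1

theorem equivalent_iff {D D' : Finset (Fin n × Fin n)} (hD : IsRook c D) (hD' : IsRook c D') :
    Equivalent c (lam (F := F) c D) (lam c D') ↔
      ∃ w : Equiv.Perm (Fin n), (∀ i, c.index (w i) = c.index i) ∧
        D' = D.image fun α => (w α.1, w α.2) := by
  classical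
  have hne : ∀ {D : Finset (Fin n × Fin n)}, IsRook c D → ∀ w e,
      mat c (lam (F := F) c D) w e ≠ 0 ↔ (e, w) ∈ D := by
    intro D hD w e
    rw [mat_lam c hD]
    split_ifs with h <;> simp [h]
  constructor
  · intro h
    obtain ⟨π, h1, h2⟩ := exists_perm (mat_low c _) (rook_lam c hD) (mat_low c _)
      (rook_lam c hD') (rel_of_equivalent c h)
    refine ⟨π, fun i => Fin.ext (h1 i), ?_⟩
    ext ⟨e, w⟩
    rw [Finset.mem_image]
    constructor
    · intro h3
      rw [← hne hD'] at h3
      have h4 := (h2 (π.symm w) (π.symm e)).mp (by simpa using h3)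
      rw [hne hD] at h4
      exact ⟨_, h4, by simp⟩
    · rintro ⟨⟨a, b⟩, h3, h4⟩
      rw [← hne hD] at h3
      have h5 := (h2 b a).mpr h3
      rw [hne hD'] at h5
      rw [← h4]
      exact h5
  · rintro ⟨w, hw, rfl⟩
    -- permutation matrices
    have hb : ∀ i, bl c (w i) = bl c i := fun i => congrArg Fin.val (hw i)
    refine equivalent_of_rel c ?_
    let g : Matrix (Fin n) (Fin n) F := fun i k => if i = w k then 1 else 0
    let h : Matrix (Fin n) (Fin n) F := fun i k => if w i = k then 1 else 0
    have hgh : g * h = 1 := by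
      ext i k
      rw [Matrix.mul_apply, Finset.sum_eq_single (w.symm i)]
      · by_cases hik : i = k
        · subst hik; simp [g, h]
        · simp [g, h, hik]
      · intro m _ hm
        simp only [g]
        rw [if_neg, zero_mul]
        rintro rfl; simp at hm
      · simp
    have hhg : h * g = 1 := mul_eq_one_comm.mp hgh
    have hgU : Up (bl c) g := by
      intro i k hik
      simp only [g]
      rw [if_neg]
      rintro rfl
      rw [hb] at hik; omega
    have hhU : Up (bl c) h := by
      intro i k hik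
      simp only [h]
      rw [if_neg]
      rintro rfl
      rw [hb] at hik; omega
    refine ⟨g, h, hgU, hhU, by rw [hgh, sub_self]; exact sup_zero,
      by rw [hhg, sub_self]; exact sup_zero, ?_⟩
    intro a b hab
    have e1 : (g * mat c (lam (F := F) c D) * h) a b
        = mat c (lam (F := F) c D) (w.symm a) (w.symm b) := by
      rw [Matrix.mul_apply, Finset.sum_eq_single (w.symm b)]
      · rw [Matrix.mul_apply, Finset.sum_eq_single (w.symm a)]
        · simp [g, h]
        · intro m _ hm
          simp only [g]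
          rw [if_neg, zero_mul]
          rintro rfl; simp at hm
        · simp
      · intro m _ hm
        simp only [h]
        rw [if_neg, mul_zero]
        rintro rfl; simp at hm
      · simp
    rw [e1, mat_lam c hD', mat_lam c hD]
    have : (b, a) ∈ D.image (fun α => (w α.1, w α.2)) ↔ (w.symm b, w.symm a) ∈ D := by
      rw [Finset.mem_image]
      constructor
      · rintro ⟨⟨x, y⟩, h1, h2⟩
        simp only [Prod.mk.injEq] at h2
        rw [← h2.1, ← h2.2]
        simpa using h1
      · intro h1
        exact ⟨_, h1, by simp⟩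
    simp only [this]

end Pool.Agent.R272.Rook
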