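import Pool.Agent.R272.Rook.Basic

set_option autoImplicit false

namespace Pool.Agent.R272.Rook

open Matrix Finset

variable {ι : Type*} [Fintype ι] [DecidableEq ι] {F : Type*} [Field F] {blk : ι → ℕ}

open Classical in
/-- clear the pivot columns in row block `t` -/
lemma clear_pivots {M : Matrix ι ι F} {t : ℕ} (hM : IsLow blk M)
    (hR : RookOn M {w | t < blk w}) :
    ∃ M', Rel blk M M' ∧ IsLow blk M' ∧ RookOn M' {w | t < blk w} ∧
      (∀ w y e, blk w = t → t < blk y → M' y e ≠ 0 → M' w e = 0) := by
  set M' : Matrix ι ι F := fun w e => if blk w = t ∧ ∃ y, t < blk y ∧ M y e ≠ 0 then 0 else M w e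
    with hM'
  have hag : ∀ w, t < blk w → ∀ e, M' w e = M w e := by
    intro w hw e
    simp only [hM']
    rw [if_neg]
    rintro ⟨h, _⟩; omega
  refine ⟨M', ?_, ?_, ?_, ?_⟩
  · set K : Matrix ι ι F := fun w y => if blk w = t ∧ t < blk y then -∑ e, M w e * M y e else 0
      with hK
    refine rel_row (K := K) ?_ ?_
    · intro i j hij
      simp only [hK]
      rw [if_neg]
      rintro ⟨h1, h2⟩; omega
    · intro w e hwe
      rw [Matrix.mul_apply]
      simp only [hM', hK]
      by_cases hw : blk w = t
      · by_cases hy : ∃ y, t < blk y ∧ M y e ≠ 0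
        · rw [if_pos ⟨hw, hy⟩]
          obtain ⟨y0, hy0, hy1⟩ := hy
          rw [Finset.sum_eq_single y0]
          · rw [if_pos ⟨hw, hy0⟩, Finset.sum_eq_single e]
            · have : M y0 e = 1 := (hR.1 y0 hy0 e).resolve_left hy1
              rw [this]; ring
            · intro a _ ha
              have : M y0 a = 0 := by
                by_contra h
                exact ha (hR.2.1 y0 hy0 a e h hy1)
              rw [this, mul_zero]
            · simp
          · intro y _ hyy
            by_cases hty : t < blk y
            · have : M y e = 0 := by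
                by_contra h
                exact hyy (hR.2.2 y hty y0 hy0 e h hy1)
              rw [this, mul_zero]
            · rw [if_neg (fun h => hty h.2), zero_mul]
          · simp
        · rw [if_neg (fun h => hy h.2)]
          rw [Finset.sum_eq_zero, add_zero]
          intro y _
          by_cases hty : t < blk y
          · have : M y e = 0 := by
              by_contra h
              exact hy ⟨y, hty, h⟩
            rw [this, mul_zero]
          · rw [if_neg (fun h => hty h.2), zero_mul]
      · rw [if_neg (fun h => hw h.1), Finset.sum_eq_zero, add_zero]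
        intro y _
        rw [if_neg (fun h => hw h.1), zero_mul]
  · intro w e hwe
    simp only [hM']
    split_ifs
    · rfl
    · exact hM w e hwe
  · refine ⟨fun w hw a => ?_, fun w hw a a' => ?_, fun w hw w' hw' a => ?_⟩
    · rw [hag w hw]; exact hR.1 w hw a
    · rw [hag w hw, hag w hw]; exact hR.2.1 w hw a a'
    · rw [hag w hw, hag w' hw']; exact hR.2.2 w hw w' hw' a
  · intro w y e hw hy hne
    rw [hag y hy] at hne
    simp only [hM']
    rw [if_pos ⟨hw, y, hy, hne⟩]

variable (blk) in
/-- invariant of the elimination inside row block `t` -/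
structure Inv (M : Matrix ι ι F) (t : ℕ) (S : Finset ι) : Prop where
  low : IsLow blk M
  h1 : ∀ w, t < blk w → w ∈ S
  h2 : ∀ w ∈ S, t ≤ blk w
  rook : RookOn M (S : Set ι)
  hz : ∀ w, blk w = t → w ∉ S → ∀ y ∈ S, ∀ e, M y e ≠ 0 → M w e = 0

/-- simultaneous clearing of one column -/
lemma clear_col {M : Matrix ι ι F} {t : ℕ} (hM : IsLow blk M) (hR : RookOn M {w | t < blk w})
    {w0 e0 : ι} (hw0 : blk w0 = t) (l : ι → List ℕ) (hl : ∀ w, Fut blk M w (l w))
    (hmax : ∀ w, blk w = t → M w e0 ≠ 0 → l w ≤ l w0) :
    ∀ T : Finset ι, (∀ w ∈ T, blk w = t ∧ w ≠ w0) →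
      Rel blk M (fun w e => if w ∈ T then M w e - (M w e0 / M w0 e0) * M w0 e else M w e) := by
  intro T
  induction T using Finset.induction_on with
  | empty => intro _; simpa using Rel.refl M
  | insert a T ha ih =>
    intro hT
    have h1 := ih (fun w hw => hT w (Finset.mem_insert_of_mem hw))
    refine h1.trans ?_
    set M1 : Matrix ι ι F :=
      fun w e => if w ∈ T then M w e - (M w e0 / M w0 e0) * M w0 e else M w e with hM1
    have hw0T : w0 ∉ T := fun h => (hT w0 (Finset.mem_insert_of_mem h)).2 rfl
    obtain ⟨hat, haw⟩ := hT a (Finset.mem_insert_self a T)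
    have hM2 : (fun w e => if w ∈ insert a T then M w e - (M w e0 / M w0 e0) * M w0 e else M w e)
        = rowSub M1 a w0 (M a e0 / M w0 e0) := by
      funext w e
      simp only [rowSub, hM1, if_neg hw0T]
      by_cases hwa : w = a
      · subst hwa
        rw [if_pos (Finset.mem_insert_self _ _), if_neg ha, if_pos rfl]
      · rw [if_neg hwa, sub_zero]
        simp only [Finset.mem_insert, hwa, false_or]
    rw [hM2]
    by_cases hc : M a e0 = 0
    · rw [hc, zero_div]
      refine Rel.of_eq ?_
      funext w e
      simp [rowSub]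
    · have hag : ∀ x y, t < blk x → M1 x y = M x y := by
        intro x y hx
        simp only [hM1]
        rw [if_neg]
        intro h
        have := (hT x (Finset.mem_insert_of_mem h)).1
        omega
      refine absorb (l a) (l w0) M1 w0 a _ ?_ ?_ (hat.trans hw0.symm) haw ?_ ?_ (hmax a hat hc)
      · intro w e hwe
        simp only [hM1]
        split_ifs with h
        · have h3 := (hT w (Finset.mem_insert_of_mem h)).1
          rw [hM w e hwe, hM w0 e (by omega)]; ring
        · exact hM w e hwe
      · rw [hw0]
        refine ⟨fun w hw a => ?_, fun w hw a a' => ?_, fun w hw w' hw' a => ?_⟩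
        · rw [hag w _ hw]; exact hR.1 w hw a
        · rw [hag w _ hw, hag w _ hw]; exact hR.2.1 w hw a a'
        · rw [hag w _ hw, hag w' _ hw']; exact hR.2.2 w hw w' hw' a
      · exact (hl w0).congr fun x y hx => hag x y (by omega)
      · exact (hl a).congr fun x y hx => hag x y (by omega)

/-- isolate one pivot -/
lemma isolate {M : Matrix ι ι F} {t : ℕ} (hM : IsLow blk M) {w0 e0 : ι} (hw0 : blk w0 = t)
    (hp : M w0 e0 ≠ 0) (hmin : ∀ e, M w0 e ≠ 0 → blk e0 ≤ blk e)
    (hcol : ∀ w, t ≤ blk w → w ≠ w0 → M w e0 = 0) :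
    ∃ M', Rel blk M M' ∧ IsLow blk M' ∧ (∀ w, t ≤ blk w → w ≠ w0 → ∀ e, M' w e = M w e) ∧
      (∀ e, M' w0 e = if e = e0 then 1 else 0) := by
  have he0 : blk e0 < t := by
    by_contra h
    exact hp (hM w0 e0 (by omega))
  set p := M w0 e0 with hpdef
  set g : Matrix ι ι F := fun i k =>
    if i = e0 then (if blk k = blk e0 then M w0 k else 0) else (1 : Matrix ι ι F) i k with hg
  set h : Matrix ι ι F := fun i k =>
    if i = e0 then (if k = e0 then p⁻¹ else -(p⁻¹ * M w0 k)) else (1 : Matrix ι ι F) i k with hh
  -- products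
  have key : ∀ (A : Matrix ι ι F) (w e : ι), (A * h) w e =
      if e = e0 then A w e0 * p⁻¹ else A w e - A w e0 * (p⁻¹ * M w0 e) := by
    intro A w e
    rw [Matrix.mul_apply, ← Finset.add_sum_erase _ _ (Finset.mem_univ e0)]
    have h1 : ∀ m ∈ Finset.univ.erase e0, A w m * h m e = A w m * (1 : Matrix ι ι F) m e := by
      intro m hm
      simp only [hh]
      rw [if_neg (Finset.ne_of_mem_erase hm)]
    rw [Finset.sum_congr rfl h1]
    have h2 : h e0 e = if e = e0 then p⁻¹ else -(p⁻¹ * M w0 e) := by simp [hh]
    rw [h2]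
    split_ifs with hee
    · subst hee
      rw [Finset.sum_eq_zero, add_zero]
      intro m hm
      rw [Matrix.one_apply_ne (Finset.ne_of_mem_erase hm), mul_zero]
    · rw [Finset.sum_eq_single e]
      · rw [Matrix.one_apply_eq]; ring
      · intro m _ hme
        rw [Matrix.one_apply_ne hme, mul_zero]
      · intro h; exact absurd (Finset.mem_erase.mpr ⟨hee, Finset.mem_univ e⟩) h
  have hgne : ∀ (A : Matrix ι ι F) (w e : ι), w ≠ e0 → (g * A) w e = A w e := by
    intro A w e hw
    rw [Matrix.mul_apply, Finset.sum_eq_single w]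
    · simp [hg, hw]
    · intro m _ hm
      simp only [hg]
      rw [if_neg hw, Matrix.one_apply_ne hm.symm, zero_mul]
    · simp
  have hgU : Up blk g := by
    intro i j hij
    simp only [hg]
    split_ifs with h1 h2
    · subst h1; omega
    · rfl
    · exact Matrix.one_apply_ne (by rintro rfl; exact lt_irrefl _ hij)
  have hhU : Up blk h := by
    intro i j hij
    simp only [hh]
    split_ifs with h1 h2
    · subst h1 h2; exact absurd hij (lt_irrefl _)
    · subst h1
      have : M w0 j = 0 := by
        by_contra h3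
        exact absurd (hmin j h3) (by omega)
      rw [this]; ring
    · exact Matrix.one_apply_ne (by rintro rfl; exact lt_irrefl _ hij)
  refine ⟨fun w e => if blk e < blk w then (g * M * h) w e else 0, ?_, ?_, ?_, ?_⟩
  · refine ⟨g, h, hgU, hhU, ?_, ?_, ?_⟩
    · -- g * h - 1
      intro i k hik
      rw [Matrix.sub_apply, key g i k]
      by_cases hi : i = e0
      · subst hi
        have h3 : g i i = p := by simp [hg, ← hpdef]
        have h4 : g i k = if blk k = blk i then M w0 k else 0 := by simp [hg]
        rw [h3]
        split_ifs with hki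
        · subst hki; rw [Matrix.one_apply_eq]; field_simp; ring
        · rw [Matrix.one_apply_ne (Ne.symm hki), h4]
          rcases Nat.lt_or_ge (blk k) (blk i) with h5 | h5
          · rw [if_neg (by omega)]
            have : M w0 k = 0 := by
              by_contra h3
              exact absurd (hmin k h3) (by omega)
            rw [this]; ring
          · rw [if_pos (by omega)]; field_simp; ring
      · have h3 : ∀ a, g i a = (1 : Matrix ι ι F) i a := by intro a; simp [hg, hi]
        rw [h3, h3, Matrix.one_apply_ne hi]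
        split_ifs with hk
        · subst hk; rw [Matrix.one_apply_ne hi]; ring
        · ring
    · -- h * g - 1
      intro i k hik
      rw [Matrix.sub_apply, Matrix.mul_apply]
      by_cases hi : i = e0
      · subst hi
        rw [← Finset.add_sum_erase _ _ (Finset.mem_univ i)]
        have h1 : ∀ m ∈ Finset.univ.erase i, h i m * g m k
            = -(p⁻¹ * M w0 m) * (1 : Matrix ι ι F) m k := by
          intro m hm
          have hm' := Finset.ne_of_mem_erase hm
          simp only [hh, hg, if_true, if_neg hm']
        rw [Finset.sum_congr rfl h1]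
        have h2 : h i i = p⁻¹ := by simp [hh]
        have h4 : g i k = if blk k = blk i then M w0 k else 0 := by simp [hg]
        rw [h2, h4]
        by_cases hki : k = i
        · subst hki
          rw [Finset.sum_eq_zero, Matrix.one_apply_eq, if_pos rfl, ← hpdef]
          · field_simp; ring
          · intro m hm
            rw [Matrix.one_apply_ne (Finset.ne_of_mem_erase hm), mul_zero]
        · rw [Matrix.one_apply_ne (Ne.symm hki), Finset.sum_eq_single k]
          · rw [Matrix.one_apply_eq]
            rcases Nat.lt_or_ge (blk k) (blk i) with h5 | h5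
            · rw [if_neg (by omega)]
              have : M w0 k = 0 := by
                by_contra h3
                exact absurd (hmin k h3) (by omega)
              rw [this]; ring
            · rw [if_pos (by omega)]; ring
          · intro m _ hme
            rw [Matrix.one_apply_ne hme, mul_zero]
          · intro h; exact absurd (Finset.mem_erase.mpr ⟨hki, Finset.mem_univ k⟩) h
      · rw [Finset.sum_eq_single i]
        · have h3 : ∀ a, h i a = (1 : Matrix ι ι F) i a := by intro a; simp [hh, hi]
          have h4 : ∀ a, g i a = (1 : Matrix ι ι F) i a := by intro a; simp [hg, hi]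
          rw [h3, h4, Matrix.one_apply_eq]; ring
        · intro m _ hm
          have h3 : ∀ a, h i a = (1 : Matrix ι ι F) i a := by intro a; simp [hh, hi]
          rw [h3, Matrix.one_apply_ne hm.symm, zero_mul]
        · simp
    · intro w e hwe
      simp only
      rw [if_pos hwe]
  · intro w e hwe
    simp only
    rw [if_neg (by omega)]
  · intro w hw hww e
    have hwe0 : w ≠ e0 := by rintro rfl; omega
    simp only
    split_ifs with hlt
    · rw [key (g * M) w e, hgne M w e0 hwe0, hgne M w e hwe0, hcol w hw hww]
      split_ifs with he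
      · subst he; rw [hcol w hw hww]; ring
      · ring
    · rw [hM w e (by omega)]
  · intro e
    have hwe0 : w0 ≠ e0 := by rintro rfl; omega
    simp only
    split_ifs with hlt he he
    · subst he
      rw [key (g * M) w0 e, if_pos rfl, hgne M w0 e hwe0, ← hpdef, mul_inv_cancel₀ hp]
    · rw [key (g * M) w0 e, if_neg he, hgne M w0 e0 hwe0, hgne M w0 e hwe0, ← hpdef]
      field_simp; ring
    · subst he; omega
    · rfl

/-- one step of the elimination -/
lemma inv_step {M : Matrix ι ι F} {t : ℕ} {S : Finset ι} (hI : Inv blk M t S)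
    (hex : ∃ w, blk w = t ∧ w ∉ S) :
    ∃ M' S', Rel blk M M' ∧ Inv blk M' t S' ∧ S ⊂ S' := by
  have hR : RookOn M {w | t < blk w} :=
    ⟨fun w hw => hI.rook.1 w (hI.h1 w hw), fun w hw => hI.rook.2.1 w (hI.h1 w hw),
      fun w hw w' hw' => hI.rook.2.2 w (hI.h1 w hw) w' (hI.h1 w' hw')⟩
  by_cases hall : ∀ w, blk w = t → w ∉ S → ∀ e, M w e = 0
  · obtain ⟨a, ha, haS⟩ := hex
    refine ⟨M, insert a S, Rel.refl M, ⟨hI.low, fun w hw => Finset.mem_insert_of_mem (hI.h1 w hw),
      ?_, ?_, ?_⟩, Finset.ssubset_insert haS⟩
    · intro w hw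
      rcases Finset.mem_insert.mp hw with rfl | hw
      · exact ha.ge
      · exact hI.h2 w hw
    · have hz := hall a ha haS
      refine ⟨fun w hw e => ?_, fun w hw e e' h1 h2 => ?_, fun w hw w' hw' e h1 h2 => ?_⟩
      · rcases Finset.mem_insert.mp (Finset.mem_coe.mp hw) with rfl | hw
        · exact Or.inl (hz e)
        · exact hI.rook.1 w hw e
      · rcases Finset.mem_insert.mp (Finset.mem_coe.mp hw) with rfl | hw
        · exact absurd (hz e) h1
        · exact hI.rook.2.1 w hw e e' h1 h2
      · rcases Finset.mem_insert.mp (Finset.mem_coe.mp hw) with rfl | hw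
        · exact absurd (hz e) h1
        · rcases Finset.mem_insert.mp (Finset.mem_coe.mp hw') with rfl | hw'
          · exact absurd (hz e) h2
          · exact hI.rook.2.2 w hw w' hw' e h1 h2
    · intro w hw hwS y _ e _
      exact hall w hw (fun h => hwS (Finset.mem_insert_of_mem h)) e
  · push Not at hall
    -- candidates
    classical
    let C : Finset (ι × ι) := Finset.univ.filter fun q => blk q.1 = t ∧ q.1 ∉ S ∧ M q.1 q.2 ≠ 0
    have hC : C.Nonempty := by
      obtain ⟨w, hw, hwS, e, he⟩ := hall
      exact ⟨(w, e), by simp [C, hw, hwS, he]⟩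
    obtain ⟨q0, hq0, hq0min⟩ := Finset.exists_min_image C (fun q => blk q.2) hC
    choose l hl using fun e => exists_fut (blk := blk) M e
    let C1 : Finset (ι × ι) := C.filter fun q => blk q.2 = blk q0.2
    have hC1 : C1.Nonempty := ⟨q0, by simp [C1, hq0]⟩
    obtain ⟨q, hq, hqmax⟩ := Finset.exists_max_image C1 (fun q => l q.1) hC1
    obtain ⟨w0, e0⟩ := q
    simp only [C1, C, Finset.mem_filter, Finset.mem_univ, true_and] at hq hq0 hq0min hqmax
    obtain ⟨⟨hw0, hw0S, hp⟩, hblk⟩ := hq
    -- clear the column
    let T : Finset ι := Finset.univ.filter fun w => blk w = t ∧ w ∉ S ∧ w ≠ w0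
    have hT : ∀ w ∈ T, blk w = t ∧ w ≠ w0 := by
      intro w hw
      simp only [T, Finset.mem_filter, Finset.mem_univ, true_and] at hw
      exact ⟨hw.1, hw.2.2⟩
    have hSe0 : ∀ y ∈ S, M y e0 = 0 := by
      intro y hy
      by_contra h
      exact hp (hI.hz w0 hw0 hw0S y hy e0 h)
    have hrel1 := clear_col hI.low hR hw0 l hl (e0 := e0) (by
      intro w hw hwe
      by_cases hwS : w ∈ S
      · exact absurd (hSe0 w hwS) hwe
      · exact hqmax (w, e0) ⟨⟨hw, hwS, hwe⟩, hblk⟩) T hT
    set M1 : Matrix ι ι F :=
      fun w e => if w ∈ T then M w e - (M w e0 / M w0 e0) * M w0 e else M w e with hM1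
    have hw0T : w0 ∉ T := by simp [T]
    have hM1w0 : ∀ e, M1 w0 e = M w0 e := by intro e; simp only [hM1]; rw [if_neg hw0T]
    have hM1S : ∀ y ∈ S, ∀ e, M1 y e = M y e := by
      intro y hy e
      simp only [hM1]
      rw [if_neg]
      simp [T, hy]
    have hM1low : IsLow blk M1 := by
      intro w e hwe
      simp only [hM1]
      split_ifs with h
      · have h3 := (hT w h).1
        rw [hI.low w e hwe, hI.low w0 e (by omega)]; ring
      · exact hI.low w e hwe
    have hmin1 : ∀ e, M1 w0 e ≠ 0 → blk e0 ≤ blk e := by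
      intro e he
      rw [hM1w0] at he
      rw [hblk]
      exact hq0min (w0, e) ⟨hw0, hw0S, he⟩
    have hcol1 : ∀ w, t ≤ blk w → w ≠ w0 → M1 w e0 = 0 := by
      intro w hw hww
      by_cases hwS : w ∈ S
      · rw [hM1S w hwS]; exact hSe0 w hwS
      · have hwt : blk w = t := by
          by_contra h
          exact hwS (hI.h1 w (by omega))
        have hwT : w ∈ T := by simp [T, hwt, hwS, hww]
        simp only [hM1]
        rw [if_pos hwT]
        field_simp
        ring
    obtain ⟨M2, hrel2, hlow2, hag2, hrow2⟩ :=
      isolate hM1low hw0 (by rw [hM1w0]; exact hp) hmin1 hcol1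
    have hM2S : ∀ y ∈ S, ∀ e, M2 y e = M y e := by
      intro y hy e
      rw [hag2 y (hI.h2 y hy) (by rintro rfl; exact hw0S hy) e, hM1S y hy]
    refine ⟨M2, insert w0 S, hrel1.trans hrel2,
      ⟨hlow2, fun w hw => Finset.mem_insert_of_mem (hI.h1 w hw), ?_, ?_, ?_⟩,
      Finset.ssubset_insert hw0S⟩
    · intro w hw
      rcases Finset.mem_insert.mp hw with rfl | hw
      · exact hw0.ge
      · exact hI.h2 w hw
    · refine ⟨fun w hw e => ?_, fun w hw e e' h1 h2 => ?_, fun w hw w' hw' e h1 h2 => ?_⟩
      · rcases Finset.mem_insert.mp (Finset.mem_coe.mp hw) with rfl | hws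
        · rw [hrow2]; split_ifs <;> simp
        · rw [hM2S w hws]; exact hI.rook.1 w hws e
      · rcases Finset.mem_insert.mp (Finset.mem_coe.mp hw) with rfl | hws
        · rw [hrow2] at h1 h2
          have h3 : e = e0 := by by_contra h; simp [h] at h1
          have h4 : e' = e0 := by by_contra h; simp [h] at h2
          rw [h3, h4]
        · rw [hM2S w hws] at h1 h2
          exact hI.rook.2.1 w hws e e' h1 h2
      · rcases Finset.mem_insert.mp (Finset.mem_coe.mp hw) with hws | hws
        · rcases Finset.mem_insert.mp (Finset.mem_coe.mp hw') with hws' | hws'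
          · rw [hws, hws']
          · rw [hws, hrow2] at h1
            have h3 : e = e0 := by by_contra h; simp [h] at h1
            rw [hM2S w' hws', h3] at h2
            exact absurd (hSe0 w' hws') h2
        · rcases Finset.mem_insert.mp (Finset.mem_coe.mp hw') with hws' | hws'
          · rw [hws', hrow2] at h2
            have h3 : e = e0 := by by_contra h; simp [h] at h2
            rw [hM2S w hws, h3] at h1
            exact absurd (hSe0 w hws) h1
          · rw [hM2S w hws] at h1
            rw [hM2S w' hws'] at h2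
            exact hI.rook.2.2 w hws w' hws' e h1 h2
    · intro w hw hwS y hy e hye
      have hwS' : w ∉ S := fun h => hwS (Finset.mem_insert_of_mem h)
      have hww0 : w ≠ w0 := fun h => hwS (h ▸ Finset.mem_insert_self w0 S)
      rw [hag2 w hw.ge hww0 e]
      have hwT : w ∈ T := by simp [T, hw, hwS', hww0]
      rcases Finset.mem_insert.mp hy with rfl | hy
      · rw [hrow2] at hye
        have h3 : e = e0 := by by_contra h; simp [h] at hye
        rw [h3]
        exact hcol1 w hw.ge hww0
      · rw [hM2S y hy] at hye
        simp only [hM1]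
        rw [if_pos hwT, hI.hz w hw hwS' y hy e hye, hI.hz w0 hw0 hw0S y hy e hye]
        ring

lemma inv_finish {t : ℕ} : ∀ (n : ℕ) (M : Matrix ι ι F) (S : Finset ι), Inv blk M t S →
    Fintype.card ι - S.card ≤ n → ∃ M', Rel blk M M' ∧ IsLow blk M' ∧
      RookOn M' {w | t ≤ blk w} := by
  intro n
  induction n with
  | zero =>
    intro M S hI hn
    have hS : S = Finset.univ := by
      rw [← Finset.card_eq_iff_eq_univ]
      have := Finset.card_le_univ S
      omega
    refine ⟨M, Rel.refl M, hI.low, ?_⟩
    have := hI.rook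
    rw [hS] at this
    exact ⟨fun w _ => this.1 w (by simp), fun w _ => this.2.1 w (by simp),
      fun w _ w' _ => this.2.2 w (by simp) w' (by simp)⟩
  | succ n ih =>
    intro M S hI hn
    by_cases hex : ∃ w, blk w = t ∧ w ∉ S
    · obtain ⟨M', S', h1, h2, h3⟩ := inv_step hI hex
      have h4 := Finset.card_lt_card h3
      obtain ⟨M'', h5, h6, h7⟩ := ih M' S' h2 (by omega)
      exact ⟨M'', h1.trans h5, h6, h7⟩
    · push Not at hex
      have hmem : ∀ w, t ≤ blk w → w ∈ S := by
        intro w hw
        rcases Nat.lt_or_ge t (blk w) with h | h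
        · exact hI.h1 w h
        · exact hex w (by omega)
      exact ⟨M, Rel.refl M, hI.low, fun w hw => hI.rook.1 w (hmem w hw),
        fun w hw => hI.rook.2.1 w (hmem w hw),
        fun w hw w' hw' => hI.rook.2.2 w (hmem w hw) w' (hmem w' hw')⟩

lemma stage {M : Matrix ι ι F} {t : ℕ} (hM : IsLow blk M) (hR : RookOn M {w | t < blk w}) :
    ∃ M', Rel blk M M' ∧ IsLow blk M' ∧ RookOn M' {w | t ≤ blk w} := by
  classical
  obtain ⟨M1, h1, h2, h3, h4⟩ := clear_pivots hM hR
  let S : Finset ι := Finset.univ.filter fun w => t < blk w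
  have hI : Inv blk M1 t S := by
    refine ⟨h2, fun w hw => by simp [S, hw], fun w hw => ?_, ?_, ?_⟩
    · simp only [S, Finset.mem_filter, Finset.mem_univ, true_and] at hw
      exact hw.le
    · have : (S : Set ι) = {w | t < blk w} := by ext w; simp [S]
      rw [this]; exact h3
    · intro w hw _ y hy e hye
      simp only [S, Finset.mem_filter, Finset.mem_univ, true_and] at hy
      exact h4 w y e hw hy hye
  obtain ⟨M2, h5, h6, h7⟩ := inv_finish _ M1 S hI le_rfl
  exact ⟨M2, h1.trans h5, h6, h7⟩

/-- every strictly lower block matrix is equivalent to a rook placement -/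
theorem exists_rook {M : Matrix ι ι F} (hM : IsLow blk M) :
    ∃ M', Rel blk M M' ∧ IsLow blk M' ∧ RookOn M' Set.univ := by
  obtain ⟨N, hN⟩ : ∃ N, ∀ i, blk i < N :=
    ⟨(Finset.univ.sup blk) + 1, fun i => Nat.lt_succ_of_le (Finset.le_sup (Finset.mem_univ i))⟩
  have key : ∀ k, k ≤ N → ∃ M', Rel blk M M' ∧ IsLow blk M' ∧ RookOn M' {w | N - k ≤ blk w} := by
    intro k
    induction k with
    | zero =>
      intro _
      refine ⟨M, Rel.refl M, hM, ?_⟩
      refine ⟨fun w hw => ?_, fun w hw => ?_, fun w hw => ?_⟩ <;>
      · have := hN w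
        simp only [Set.mem_ofPred_eq, Nat.sub_zero] at hw
        omega
    | succ k ih =>
      intro hk
      obtain ⟨M1, h1, h2, h3⟩ := ih (by omega)
      have h4 : {w | N - k ≤ blk w} = {w | N - (k + 1) < blk w} := by
        ext w; simp only [Set.mem_ofPred_eq]; omega
      rw [h4] at h3
      obtain ⟨M2, h5, h6, h7⟩ := stage h2 h3
      exact ⟨M2, h1.trans h5, h6, h7⟩
  obtain ⟨M', h1, h2, h3⟩ := key N le_rfl
  refine ⟨M', h1, h2, ?_⟩
  have : {w | N - N ≤ blk w} = Set.univ := by ext w; simp
  rw [this] at h3
  exact h3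

end Pool.Agent.R272.Rook
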