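import Pool.Agent.R272.Rook.Basic

set_option autoImplicit false

namespace Pool.Agent.R272.Rook

open Matrix Finset

variable {ι : Type*} [Fintype ι] [DecidableEq ι] {F : Type*} [Field F] {blk : ι → ℕ}

lemma sup_pow {s : Matrix ι ι F} (hs : SUp blk s) : ∀ (k : ℕ) (i j : ι), blk j < blk i + k →
    (s ^ k) i j = 0 := by
  intro k
  induction k with
  | zero =>
    intro i j h
    rw [pow_zero]
    exact Matrix.one_apply_ne (by rintro rfl; omega)
  | succ k ih =>
    intro i j h
    rw [pow_succ, Matrix.mul_apply]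
    refine Finset.sum_eq_zero fun m _ => ?_
    rcases Nat.lt_or_ge (blk m) (blk i + k) with h1 | h1
    · rw [ih i m h1, zero_mul]
    · rw [hs m j (by omega), mul_zero]

lemma sup_inv {s : Matrix ι ι F} (hs : SUp blk s) :
    ∃ s' : Matrix ι ι F, SUp blk s' ∧ (1 + s) * (1 + s') = 1 ∧ (1 + s') * (1 + s) = 1 := by
  obtain ⟨B, hB⟩ : ∃ N, ∀ i, blk i < N :=
    ⟨(Finset.univ.sup blk) + 1, fun i => Nat.lt_succ_of_le (Finset.le_sup (Finset.mem_univ i))⟩
  have hz : (-s) ^ B = 0 := by
    ext i j
    exact sup_pow hs.neg B i j (by have := hB j; omega)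
  set t : Matrix ι ι F := ∑ k ∈ Finset.range B, (-s) ^ k with ht
  have h1 : t * (1 + s) = 1 := by
    have := geom_sum_mul (-s) B
    rw [hz, ← ht] at this
    have h2 : t * (1 + s) = -(t * (-s - 1)) := by noncomm_ring
    rw [h2, this]; simp
  have h2 : (1 + s) * t = 1 := by
    have := mul_geom_sum (-s) B
    rw [hz, ← ht] at this
    have h2 : (1 + s) * t = -((-s - 1) * t) := by noncomm_ring
    rw [h2, this]; simp
  refine ⟨t - 1, ?_, ?_, ?_⟩
  · intro i j hij
    rw [Matrix.sub_apply, ht, Matrix.sum_apply, Finset.sum_eq_single 0]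
    · simp
    · intro k _ hk
      exact sup_pow hs.neg k i j (by omega)
    · intro h
      have := hB i
      simp at h
      omega
  · rw [add_sub_cancel, h2]
  · rw [add_sub_cancel, h1]

lemma Rel.symm {M M' : Matrix ι ι F} (h : Rel blk M M') : Rel blk M' M := by
  obtain ⟨g, h, hg, hh, hgh, hhg, e1⟩ := h
  obtain ⟨s, hs, hs1, hs2⟩ := sup_inv hgh
  obtain ⟨s', hs', hs1', hs2'⟩ := sup_inv hhg
  rw [add_sub_cancel] at hs1 hs2 hs1' hs2'
  -- inverse of `g` is `h * (1 + s)`, inverse of `h` is `g * (1 + s')`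
  have hg1 : g * (h * (1 + s)) = 1 := by rw [← mul_assoc]; exact hs1
  have hg2 : (h * (1 + s)) * g = 1 := mul_eq_one_comm.mp hg1
  have hh1 : h * (g * (1 + s')) = 1 := by rw [← mul_assoc]; exact hs1'
  have hU1 : Up blk (1 + s) := up_one.add hs.up
  have hU2 : Up blk (1 + s') := up_one.add hs'.up
  refine ⟨h * (1 + s), g * (1 + s'), hh.mul hU1, hg.mul hU2, ?_, ?_, ?_⟩
  · have : h * (1 + s) * (g * (1 + s')) - 1 = (h * g - 1) + (h * g) * s' + h * s * (g * (1 + s')) := by
      noncomm_ring
    rw [this]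
    exact (hhg.add (SUp.mul_left (hh.mul hg) hs')).add
      ((SUp.mul_left hh hs).mul_right (hg.mul hU2))
  · have : g * (1 + s') * (h * (1 + s)) - 1 = (g * h - 1) + (g * h) * s + g * s' * (h * (1 + s)) := by
      noncomm_ring
    rw [this]
    exact (hgh.add (SUp.mul_left (hg.mul hh) hs)).add
      ((SUp.mul_left hg hs').mul_right (hh.mul hU1))
  · intro w e hwe
    have hU : Up blk (M' - g * M * h) := by
      intro a b hab
      rw [Matrix.sub_apply, e1 a b hab, sub_self]
    have h3 : (h * (1 + s)) * M' * (g * (1 + s'))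
        = M + (h * (1 + s)) * (M' - g * M * h) * (g * (1 + s')) := by
      have h4 : (h * (1 + s)) * (g * M * h) * (g * (1 + s')) = M := by
        calc (h * (1 + s)) * (g * M * h) * (g * (1 + s'))
            = ((h * (1 + s)) * g) * M * (h * (g * (1 + s'))) := by noncomm_ring
          _ = M := by rw [hg2, hh1, Matrix.one_mul, Matrix.mul_one]
      rw [Matrix.mul_sub, Matrix.sub_mul, h4]
      abel
    rw [h3, Matrix.add_apply, (((hh.mul hU1).mul hU).mul (hg.mul hU2)) w e hwe, add_zero]

variable (blk) in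
/-- projection to block `i` -/
def P (i : ℕ) : (ι → F) →ₗ[F] (ι → F) where
  toFun v k := if blk k = i then v k else 0
  map_add' u v := by ext k; simp only [Pi.add_apply]; split_ifs <;> simp
  map_smul' c v := by ext k; simp

omit [Fintype ι] [DecidableEq ι] in
lemma P_apply (i : ℕ) (v : ι → F) (k : ι) : P blk i v k = if blk k = i then v k else 0 := rfl

variable (blk) in
/-- transfer of subspaces of block `j` to subspaces of block `i` -/
def theta (M : Matrix ι ι F) (i j : ℕ) (X : Submodule F (ι → F)) : Submodule F (ι → F) where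
  carrier := {v | ∃ u : ι → F, (∀ k, j < blk k → u k = 0) ∧ P blk j u ∈ X ∧
    (∀ w, i < blk w → (M *ᵥ u) w = 0) ∧ v = P blk i (M *ᵥ u)}
  zero_mem' := ⟨0, by simp, by simp, by simp, by simp⟩
  add_mem' := by
    rintro a b ⟨u, h1, h2, h3, h4⟩ ⟨v, k1, k2, k3, k4⟩
    refine ⟨u + v, fun k hk => by simp [h1 k hk, k1 k hk], ?_, fun w hw => ?_, ?_⟩
    · rw [map_add]; exact X.add_mem h2 k2
    · rw [Matrix.mulVec_add, Pi.add_apply, h3 w hw, k3 w hw, add_zero]
    · rw [Matrix.mulVec_add, map_add, h4, k4]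
  smul_mem' := by
    rintro c a ⟨u, h1, h2, h3, h4⟩
    refine ⟨c • u, fun k hk => by simp [h1 k hk], ?_, fun w hw => ?_, ?_⟩
    · rw [map_smul]; exact X.smul_mem c h2
    · rw [Matrix.mulVec_smul, Pi.smul_apply, h3 w hw, smul_zero]
    · rw [Matrix.mulVec_smul, map_smul, h4]

variable (F) in
/-- coordinate subspace -/
def CS (A : Finset ι) : Submodule F (ι → F) where
  carrier := {v | ∀ k, k ∉ A → v k = 0}
  zero_mem' := by simp
  add_mem' := by
    intro a b ha hb k hk
    rw [Pi.add_apply, ha k hk, hb k hk, add_zero]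
  smul_mem' := by
    intro c a ha k hk
    rw [Pi.smul_apply, ha k hk, smul_zero]

omit [Fintype ι] [DecidableEq ι] in
lemma mem_CS {A : Finset ι} {v : ι → F} : v ∈ CS F A ↔ ∀ k, k ∉ A → v k = 0 := Iff.rfl

omit [Fintype ι] in
lemma finrank_CS (A : Finset ι) : Module.finrank F (CS F A) = A.card := by
  have e : CS F A ≃ₗ[F] (A → F) :=
    { toFun := fun v b => v.1 b.1
      map_add' := fun u v => by ext b; rfl
      map_smul' := fun c v => by ext b; rfl
      invFun := fun f => ⟨fun k => if h : k ∈ A then f ⟨k, h⟩ else 0, by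
        intro k hk
        simp only
        rw [dif_neg hk]⟩
      left_inv := by
        rintro ⟨v, hv⟩
        ext k
        simp only
        split_ifs with h
        · rfl
        · exact (hv k h).symm
      right_inv := by
        intro f
        ext b
        simp }
  rw [LinearEquiv.finrank_eq e, Module.finrank_fintype_fun_eq_card, Fintype.card_coe]

variable (blk) in
/-- iterated transfer -/
def Z (M : Matrix ι ι F) (B : ℕ → Finset ι) : List ℕ → Submodule F (ι → F)
  | [] => ⊥
  | [i] => CS F (B i)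
  | i :: j :: L => if j < i then theta blk M i j (Z M B (j :: L)) else ⊥

variable (blk) in
/-- block diagonal part -/
def Dg (g : Matrix ι ι F) : Matrix ι ι F := fun i k => if blk i = blk k then g i k else 0

lemma Dg_mul {g h : Matrix ι ι F} (hg : Up blk g) (hh : Up blk h) (hgh : SUp blk (g * h - 1)) :
    Dg blk g * Dg blk h = 1 := by
  ext i k
  rw [Matrix.mul_apply]
  by_cases hik : blk i = blk k
  · have h1 := hgh i k hik.ge
    rw [Matrix.sub_apply, sub_eq_zero, Matrix.mul_apply] at h1
    rw [← h1]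
    refine Finset.sum_congr rfl fun m _ => ?_
    simp only [Dg]
    by_cases h2 : blk i = blk m
    · rw [if_pos h2, if_pos (by omega)]
    · rw [if_neg h2, zero_mul]
      rcases Nat.lt_or_ge (blk m) (blk i) with h3 | h3
      · rw [hg i m h3, zero_mul]
      · rw [hh m k (by omega), mul_zero]
  · rw [Matrix.one_apply_ne (by rintro rfl; exact hik rfl)]
    refine Finset.sum_eq_zero fun m _ => ?_
    simp only [Dg]
    by_cases h2 : blk i = blk m
    · rw [if_neg (by omega : ¬ blk m = blk k), mul_zero]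
    · rw [if_neg h2, zero_mul]

omit [DecidableEq ι] in
lemma up_proj {h : Matrix ι ι F} (hh : Up blk h) {j : ℕ} {u : ι → F}
    (hu : ∀ k, j < blk k → u k = 0) :
    (∀ k, j < blk k → (h *ᵥ u) k = 0) ∧ P blk j (h *ᵥ u) = Dg blk h *ᵥ (P blk j u) := by
  constructor
  · intro k hk
    rw [Matrix.mulVec, dotProduct]
    refine Finset.sum_eq_zero fun m _ => ?_
    rcases Nat.lt_or_ge (blk m) (blk k) with h1 | h1
    · rw [hh k m h1, zero_mul]
    · rw [hu m (by omega), mul_zero]
  · ext k
    rw [P_apply, Matrix.mulVec, Matrix.mulVec, dotProduct, dotProduct]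
    split_ifs with hk
    · refine Finset.sum_congr rfl fun m _ => ?_
      rw [P_apply, Dg]
      rcases lt_trichotomy (blk m) (blk k) with h1 | h1 | h1
      · rw [hh k m h1, if_neg (by omega)]; ring
      · rw [if_pos h1.symm, if_pos (by omega)]
      · rw [hu m (by omega)]; simp
    · symm
      refine Finset.sum_eq_zero fun m _ => ?_
      rw [P_apply, Dg]
      by_cases h1 : blk m = j
      · rw [if_neg (by omega), zero_mul]
      · rw [if_neg h1, mul_zero]

lemma zero_of_up {g h : Matrix ι ι F} (hh : Up blk h) (hhg : SUp blk (h * g - 1)) {i : ℕ}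
    {z : ι → F} (hz : ∀ w, i < blk w → (g *ᵥ z) w = 0) : ∀ w, i < blk w → z w = 0 := by
  obtain ⟨N, hN⟩ : ∃ N, ∀ i, blk i < N :=
    ⟨(Finset.univ.sup blk) + 1, fun i => Nat.lt_succ_of_le (Finset.le_sup (Finset.mem_univ i))⟩
  intro w hw
  induction hk : N - blk w using Nat.strong_induction_on generalizing w with
  | _ k ih =>
    have h1 : ((h * g) *ᵥ z) w = 0 := by
      rw [← Matrix.mulVec_mulVec, Matrix.mulVec, dotProduct]
      refine Finset.sum_eq_zero fun m _ => ?_
      rcases Nat.lt_or_ge (blk m) (blk w) with h1 | h1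
      · rw [hh w m h1, zero_mul]
      · rw [hz m (by omega), mul_zero]
    have h2 : (h * g) *ᵥ z = z + (h * g - 1) *ᵥ z := by
      rw [Matrix.sub_mulVec, Matrix.one_mulVec]; abel
    have h3 : ((h * g - 1) *ᵥ z) w = 0 := by
      rw [Matrix.mulVec, dotProduct]
      refine Finset.sum_eq_zero fun m _ => ?_
      rcases Nat.lt_or_ge (blk w) (blk m) with h1 | h1
      · rw [ih (N - blk m) (by have := hN m; omega) m (by omega) rfl, mul_zero]
      · rw [hhg w m h1, zero_mul]
    rw [h2, Pi.add_apply, h3, add_zero] at h1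
    exact h1

lemma theta_rel {M M' g h : Matrix ι ι F} (hg : Up blk g) (hh : Up blk h)
    (hhg : SUp blk (h * g - 1)) (e1 : ∀ w e, blk e < blk w → M' w e = (g * M * h) w e)
    {i j : ℕ} (hij : j < i) {X X' : Submodule F (ι → F)} (hX : ∀ x ∈ X', Dg blk h *ᵥ x ∈ X) :
    ∀ v ∈ theta blk M' i j X', ∃ v0 ∈ theta blk M i j X, v = Dg blk g *ᵥ v0 := by
  rintro v ⟨u, h1, h2, h3, h4⟩
  obtain ⟨hu1, hu2⟩ := up_proj hh h1
  have e2 : ∀ w, i ≤ blk w → (M' *ᵥ u) w = (g *ᵥ (M *ᵥ (h *ᵥ u))) w := by
    intro w hw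
    rw [Matrix.mulVec_mulVec, Matrix.mulVec_mulVec, Matrix.mulVec, Matrix.mulVec,
      dotProduct, dotProduct]
    refine Finset.sum_congr rfl fun m _ => ?_
    rcases Nat.lt_or_ge j (blk m) with h5 | h5
    · rw [h1 m h5, mul_zero, mul_zero]
    · rw [e1 w m (by omega)]
  have hz : ∀ w, i < blk w → (M *ᵥ (h *ᵥ u)) w = 0 :=
    zero_of_up hh hhg fun w hw => by rw [← e2 w hw.le]; exact h3 w hw
  refine ⟨P blk i (M *ᵥ (h *ᵥ u)), ⟨h *ᵥ u, hu1, ?_, hz, rfl⟩, ?_⟩
  · rw [hu2]; exact hX _ h2
  · rw [h4, ← (up_proj hg hz).2]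
    ext k
    rw [P_apply, P_apply]
    split_ifs with hk
    · exact e2 k hk.ge
    · rfl

lemma Z_rel {M M' g h : Matrix ι ι F} (hg : Up blk g) (hh : Up blk h)
    (hhg : SUp blk (h * g - 1)) (e1 : ∀ w e, blk e < blk w → M' w e = (g * M * h) w e)
    {B : ℕ → Finset ι} (hB : ∀ i, ∀ v ∈ CS F (B i), ∃ v0 ∈ CS F (B i), v = Dg blk g *ᵥ v0) :
    ∀ L : List ℕ, ∀ v ∈ Z blk M' B L, ∃ v0 ∈ Z blk M B L, v = Dg blk g *ᵥ v0 := by
  intro L
  induction L with
  | nil =>
    intro v hv
    rw [Z, Submodule.mem_bot] at hv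
    exact ⟨0, by simp [Z], by simp [hv]⟩
  | cons i L ih =>
    cases L with
    | nil => intro v hv; exact hB i v hv
    | cons j L =>
      intro v hv
      rw [Z] at hv ⊢
      split_ifs at hv ⊢ with hij
      · refine theta_rel hg hh hhg e1 hij ?_ v hv
        intro x hx
        obtain ⟨x0, hx0, rfl⟩ := ih x hx
        rw [Matrix.mulVec_mulVec, Dg_mul hh hg hhg, Matrix.one_mulVec]
        exact hx0
      · rw [Submodule.mem_bot] at hv
        exact ⟨0, by simp, by simp [hv]⟩

lemma finrank_Z_le {M M' : Matrix ι ι F} (hR : Rel blk M M') (B : ℕ → Finset ι)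
    (hB : (∀ i, B i = ∅) ∨ (∀ i, B i = Finset.univ.filter fun k => blk k = i)) (L : List ℕ) :
    Module.finrank F (Z blk M' B L) ≤ Module.finrank F (Z blk M B L) := by
  obtain ⟨g, h, hg, hh, hgh, hhg, e1⟩ := hR
  have hB' : ∀ i, ∀ v ∈ CS F (B i), ∃ v0 ∈ CS F (B i), v = Dg blk g *ᵥ v0 := by
    intro i v hv
    refine ⟨Dg blk h *ᵥ v, ?_, ?_⟩
    · rcases hB with hB | hB
      · have : v = 0 := by
          ext k
          exact hv k (by rw [hB]; simp)
        rw [this, Matrix.mulVec_zero]
        exact Submodule.zero_mem _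
      · intro k hk
        rw [hB] at hk hv
        simp only [Finset.mem_filter, Finset.mem_univ, true_and] at hk
        rw [Matrix.mulVec, dotProduct]
        refine Finset.sum_eq_zero fun m _ => ?_
        by_cases hm : blk m = i
        · rw [Dg, if_neg (by omega), zero_mul]
        · rw [hv m (by simp [hm]), mul_zero]
    · rw [Matrix.mulVec_mulVec, Dg_mul hg hh hgh, Matrix.one_mulVec]
  have hle : Z blk M' B L ≤ (Z blk M B L).map (Dg blk g).mulVecLin := by
    intro v hv
    obtain ⟨v0, hv0, rfl⟩ := Z_rel hg hh hhg e1 hB' L v hv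
    exact ⟨v0, hv0, rfl⟩
  exact (Submodule.finrank_mono hle).trans (Submodule.finrank_map_le _ _)

lemma finrank_Z_eq {M M' : Matrix ι ι F} (hR : Rel blk M M') (B : ℕ → Finset ι)
    (hB : (∀ i, B i = ∅) ∨ (∀ i, B i = Finset.univ.filter fun k => blk k = i)) (L : List ℕ) :
    Module.finrank F (Z blk M' B L) = Module.finrank F (Z blk M B L) :=
  le_antisymm (finrank_Z_le hR B hB L) (finrank_Z_le hR.symm B hB L)

/-! ### rook matrices -/

open Classical in
variable (blk) in
/-- combinatorial transfer -/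
noncomputable def out (M : Matrix ι ι F) (i j : ℕ) (A : Finset ι) : Finset ι :=
  Finset.univ.filter fun w => blk w = i ∧ ∃ e, M w e ≠ 0 ∧ (blk e < j ∨ (blk e = j ∧ e ∈ A))

lemma rook_mulVec {M : Matrix ι ι F} (hR : RookOn M Set.univ) {w e : ι} (h : M w e ≠ 0)
    (u : ι → F) : (M *ᵥ u) w = u e := by
  rw [Matrix.mulVec, dotProduct, Finset.sum_eq_single e]
  · rw [(hR.1 w trivial e).resolve_left h, one_mul]
  · intro m _ hm
    have : M w m = 0 := by
      by_contra h1
      exact hm (hR.2.1 w trivial m e h1 h)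
    rw [this, zero_mul]
  · simp

omit [DecidableEq ι] in
lemma rook_mulVec0 {M : Matrix ι ι F} {w : ι} (h : ∀ e, M w e = 0)
    (u : ι → F) : (M *ᵥ u) w = 0 := by
  rw [Matrix.mulVec, dotProduct, Finset.sum_eq_zero]
  intro m _
  rw [h m, zero_mul]

lemma theta_rook {M : Matrix ι ι F} (hR : RookOn M Set.univ) {i j : ℕ}
    (A : Finset ι) : theta blk M i j (CS F A) = CS F (out blk M i j A) := by
  classical
  ext v
  constructor
  · rintro ⟨u, h1, h2, h3, rfl⟩ w hw
    rw [P_apply]
    split_ifs with hwi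
    · by_cases he : ∃ e, M w e ≠ 0
      · obtain ⟨e, he⟩ := he
        rw [rook_mulVec hR he]
        rcases lt_trichotomy (blk e) j with h4 | h4 | h4
        · exact absurd (by simp only [out, Finset.mem_filter, Finset.mem_univ, true_and]
                           exact ⟨hwi, e, he, Or.inl h4⟩) hw
        · by_cases heA : e ∈ A
          · exact absurd (by simp only [out, Finset.mem_filter, Finset.mem_univ, true_and]
                             exact ⟨hwi, e, he, Or.inr ⟨h4, heA⟩⟩) hw
          · have := h2 e heA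
            rw [P_apply, if_pos h4] at this
            exact this
        · exact h1 e h4
      · push Not at he
        exact rook_mulVec0 he u
    · rfl
  · intro hv
    have hv' : ∀ w, ¬ (blk w = i ∧ ∃ e, M w e ≠ 0 ∧ (blk e < j ∨ (blk e = j ∧ e ∈ A))) →
        v w = 0 := by
      intro w hw
      refine hv w ?_
      simp only [out, Finset.mem_filter, Finset.mem_univ, true_and]
      exact hw
    refine ⟨fun e => if h : ∃ w, M w e ≠ 0 then v h.choose else 0, ?_, ?_, ?_, ?_⟩
    · intro e he
      simp only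
      split_ifs with h
      · refine hv' _ ?_
        rintro ⟨_, e', he', h5⟩
        have := hR.2.1 _ trivial e' e he' h.choose_spec
        subst this
        omega
      · rfl
    · intro e he
      rw [P_apply]
      split_ifs with hej h
      · refine hv' _ ?_
        rintro ⟨_, e', he', h5⟩
        have := hR.2.1 _ trivial e' e he' h.choose_spec
        subst this
        rcases h5 with h5 | h5
        · omega
        · exact he h5.2
      · rfl
      · rfl
    · intro w hw
      by_cases he : ∃ e, M w e ≠ 0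
      · obtain ⟨e, he⟩ := he
        rw [rook_mulVec hR he]
        have h : ∃ w, M w e ≠ 0 := ⟨w, he⟩
        rw [dif_pos h]
        have h6 : h.choose = w := hR.2.2 _ trivial w trivial e h.choose_spec he
        rw [h6]
        refine hv' _ ?_
        rintro ⟨h7, _⟩
        omega
      · push Not at he
        exact rook_mulVec0 he _
    · ext w
      rw [P_apply]
      split_ifs with hwi
      · by_cases he : ∃ e, M w e ≠ 0
        · obtain ⟨e, he⟩ := he
          rw [rook_mulVec hR he]
          have h : ∃ w, M w e ≠ 0 := ⟨w, he⟩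
          rw [dif_pos h]
          have h6 : h.choose = w := hR.2.2 _ trivial w trivial e h.choose_spec he
          rw [h6]
        · rw [hv' w]
          · push Not at he
            exact (rook_mulVec0 he _).symm
          · rintro ⟨_, e, he', _⟩
            exact he ⟨e, he'⟩
      · refine hv' w ?_
        rintro ⟨h7, _⟩
        exact hwi h7

variable (blk) in
/-- iterated combinatorial transfer -/
noncomputable def ZS (M : Matrix ι ι F) (B : ℕ → Finset ι) : List ℕ → Finset ι
  | [] => ∅
  | [i] => B i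
  | i :: j :: L => if j < i then out blk M i j (ZS M B (j :: L)) else ∅

lemma Z_rook {M : Matrix ι ι F} (hR : RookOn M Set.univ) (B : ℕ → Finset ι) :
    ∀ L, Z blk M B L = CS F (ZS blk M B L) := by
  have h0 : (⊥ : Submodule F (ι → F)) = CS F (∅ : Finset ι) := by
    ext v
    rw [Submodule.mem_bot, mem_CS]
    constructor
    · rintro rfl k _; rfl
    · intro h; ext k; exact h k (by simp)
  intro L
  induction L with
  | nil => rw [Z, ZS, h0]
  | cons i L ih =>
    cases L with
    | nil => rfl
    | cons j L =>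
      rw [Z, ZS, ih]
      split_ifs
      · exact theta_rook hR _
      · exact h0

lemma card_ZS_eq {M M' : Matrix ι ι F} (hR : Rel blk M M') (h1 : RookOn M Set.univ)
    (h2 : RookOn M' Set.univ) (B : ℕ → Finset ι)
    (hB : (∀ i, B i = ∅) ∨ (∀ i, B i = Finset.univ.filter fun k => blk k = i)) (L : List ℕ) :
    (ZS blk M' B L).card = (ZS blk M B L).card := by
  have := finrank_Z_eq hR B hB L
  rwa [Z_rook h2, Z_rook h1, finrank_CS, finrank_CS] at this

end Pool.Agent.R272.Rook
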